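import Mathlib
import Pool.Agent.R488.Th.Final

set_option autoImplicit false

/-!
Calculus of units modulo `p^2`: `x = y (1 + e)`.
-/

namespace Pool.Agent.T6.H7.SB

open Finset Pool.Agent.R439.PL Pool.Agent.R439.PL.S4 Pool.Agent.R488.Tri Pool.Agent.R488.Cub
  Pool.Agent.R488.Nin Pool.Agent.R488.Sq

variable {p : ℕ} [hp : Fact p.Prime] {x y z e x' y' e' : ℚ}

/-- `x = y (1 + e)` modulo `p^2`, where `x`, `y` are units and `e` is divisible by `p` -/
def Q (p : ℕ) [Fact p.Prime] (x y e : ℚ) : Prop :=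
  U p x ∧ U p y ∧ I p 1 e ∧ EQ p 2 x (y * (1 + e))

theorem Q.refl (h : U p x) : Q p x x 0 :=
  ⟨h, h, I.zero, by rw [add_zero, mul_one]; exact EQ.refl h.2.1⟩

theorem Q.mul (h : Q p x y e) (h' : Q p x' y' e') : Q p (x * x') (y * y') (e + e') := by
  refine ⟨h.1.mul h'.1, h.2.1.mul h'.2.1, h.2.2.1.add h'.2.2.1, ?_⟩
  have h1 := h.2.2.2.mul h'.2.2.2
  have h2 := (EQ.refl (k := 2) (h.2.1.mul h'.2.1).2.1).mul (mul_small h.2.2.1 h'.2.2.1)
  have e1 : y * (1 + e) * (y' * (1 + e')) = y * y' * ((1 + e) * (1 + e')) := by ring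
  rw [e1] at h1
  have e2 : 1 + e + e' = 1 + (e + e') := by ring
  rw [e2] at h2
  exact h1.trans h2

theorem Q.inv (h : Q p x y e) : Q p x⁻¹ y⁻¹ (-e) := by
  refine ⟨h.1.inv, h.2.1.inv, h.2.2.1.neg, ?_⟩
  have h1 := h.2.2.2.inv (by norm_num) h.1
  rw [mul_inv] at h1
  have h2 := inv_small h.2.2.1
  rw [sub_eq_add_neg] at h2
  exact h1.trans ((EQ.refl h.2.1.inv.2.1).mul h2)

theorem Q.div (h : Q p x y e) (h' : Q p x' y' e') : Q p (x / x') (y / y') (e - e') := by
  rw [div_eq_mul_inv, div_eq_mul_inv, sub_eq_add_neg]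
  exact h.mul h'.inv

theorem Q.congr (h : Q p x y e) (h' : I p 2 (e - e')) : Q p x y e' := by
  have I1 : I p 1 e' := by
    have : e' = e - (e - e') := by ring
    rw [this]; exact h.2.2.1.sub (h'.mono (by norm_num))
  refine ⟨h.1, h.2.1, I1, h.2.2.2.trans ⟨h.2.2.2.2.1, mul_mem h.2.1.2.1 (U_small I1).2.1, ?_⟩⟩
  have : y * (1 + e) - y * (1 + e') = y * (e - e') := by ring
  rw [this]; exact h'.mulL h.2.1.2.1

theorem Q.symm (h : Q p x y e) : Q p y x (-e) := by
  refine ⟨h.2.1, h.1, h.2.2.1.neg, ?_⟩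
  have h1 := (h.2.2.2.mul (EQ.refl (k := 2) (U_small h.2.2.1.neg).2.1)).symm
  have h2 := (EQ.refl (k := 2) h.2.1.2.1).mul (mul_small h.2.2.1 h.2.2.1.neg)
  have e1 : y * (1 + e + -e) = y := by ring
  rw [e1, ← mul_assoc] at h2
  exact h2.symm.trans h1

theorem Q.trans (h : Q p x y e) (h' : Q p y z e') : Q p x z (e + e') := by
  have h1 := (h.mul h').mul (Q.refl h.2.1).inv
  have e1 : x * y * y⁻¹ = x := by rw [mul_assoc, mul_inv_cancel₀ h.2.1.1, mul_one]
  have e2 : y * z * y⁻¹ = z := by rw [mul_comm y z, mul_assoc, mul_inv_cancel₀ h.2.1.1, mul_one]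
  rw [e1, e2] at h1
  have e3 : e + e' + -0 = e + e' := by ring
  rwa [e3] at h1

theorem Q.of (h : U p y) (he : I p 1 e) (h' : EQ p 2 x (y * (1 + e))) : Q p x y e :=
  ⟨h'.symm.unit (by norm_num) (h.mul (U_small he)), h, he, h'⟩

theorem U_add {u d : ℚ} (hu : U p u) (hd : I p 1 d) : U p (u + d) := by
  have h2 : EQ p 1 u (u + d) := ⟨hu.2.1, add_mem hu.2.1 hd.mem, by
    have : u - (u + d) = -d := by ring
    rw [this]; exact hd.neg⟩
  exact h2.unit (by norm_num) hu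

theorem inv_add {u d : ℚ} (hu : U p u) (hd : I p 1 d) : I p 1 ((u + d)⁻¹ - u⁻¹) := by
  have h := U_add hu hd
  have e1 : (u + d)⁻¹ - u⁻¹ = d * (-((u + d)⁻¹ * u⁻¹)) := by
    have a1 := h.1
    have a2 := hu.1
    field_simp
    ring
  rw [e1]; exact hd.mulR (neg_mem (mul_mem h.2.2 hu.2.2))

theorem U_sub_nat {a i : ℕ} (h : i < a) (ha : a < p) : U p ((a : ℚ) - i) := by
  have h1 := U_nat (p := p) (k := a - i) (by omega) (by omega)
  rwa [Nat.cast_sub (by omega)] at h1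

theorem prod_desc {a b : ℕ} (hb : b ≤ a) :
    ∏ i ∈ range b, ((a : ℚ) - i) = (a.factorial : ℚ) / (a - b).factorial := by
  have h1 := Nat.factorial_mul_descFactorial hb
  have h2 : ((a.descFactorial b : ℕ) : ℚ) = ∏ i ∈ range b, ((a : ℚ) - i) := by
    rw [Nat.descFactorial_eq_prod_range]
    push_cast
    refine prod_congr rfl fun i hi => ?_
    rw [Nat.cast_sub (by have := mem_range.1 hi; omega)]
  rw [← h2, ← h1]
  have h3 : ((a - b).factorial : ℚ) ≠ 0 := by exact_mod_cast Nat.factorial_ne_zero _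
  push_cast
  field_simp

theorem Ipc {c : ℚ} (hc : c ∈ Zp p) : I p 1 (c * p) := (I_p (p := p)).mulL hc

/-- descending products -/
theorem desc {a b : ℕ} (hb : b ≤ a) (ha : a < p) {c x : ℚ} (hc : c ∈ Zp p) (hx : x = c * p - a) :
    Q p (∏ i ∈ range b, (x + i)) ((-1) ^ b * ((a.factorial : ℚ) / (a - b).factorial))
      (-c * (p * H a - p * H (a - b))) := by
  have h := prodH (p := p) hb ha (Ipc hc)
  rw [prod_desc hb] at h
  have um : U p ((-1 : ℚ) ^ b) := by
    rcases neg_one_pow_eq_or ℚ b with h | h <;> rw [h]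
    · exact U.one
    · exact U_neg U.one
  have uf : U p ((a.factorial : ℚ) / (a - b).factorial) :=
    (U_fac (p := p) ha).div (U_fac (p := p) (by omega))
  have hI : I p 1 (-c * (p * H a - p * H (a - b))) := by
    have : -c * (p * H a - p * H (a - b)) = c * p * (-(H a - H (a - b))) := by ring
    rw [this]
    exact (Ipc hc).mulR (neg_mem (sub_mem (H_mem ha) (H_mem (by omega))))
  refine Q.of (um.mul uf) hI ?_
  have e1 : ∏ i ∈ range b, (x + i) = (-1) ^ b * ∏ i ∈ range b, ((a : ℚ) - i - c * p) := by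
    rw [← card_range b, ← prod_const, card_range, ← prod_mul_distrib]
    refine prod_congr rfl fun i _ => ?_
    rw [hx]; ring
  rw [e1]
  have h1 := (EQ.refl (k := 2) um.2.1).mul h
  have e2 : (-1 : ℚ) ^ b * ((a.factorial : ℚ) / (a - b).factorial * (1 - c * p * (H a - H (a - b)))) =
      (-1) ^ b * ((a.factorial : ℚ) / (a - b).factorial) * (1 + -c * (p * H a - p * H (a - b))) := by
    ring
  rwa [e2] at h1

/-- ascending products -/
theorem asc {a b : ℕ} (ha : a + b < p) {c x : ℚ} (hc : c ∈ Zp p) (hx : x = a + 1 + c * p) :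
    Q p (∏ i ∈ range b, (x + i)) (((a + b).factorial : ℚ) / a.factorial)
      (c * (p * H (a + b) - p * H a)) := by
  have h := desc (p := p) (a := a + b) (b := b) (by omega) ha (c := -c) (x := -c * p - ((a + b : ℕ) : ℚ))
    (neg_mem hc) rfl
  rw [Nat.add_sub_cancel] at h
  have um : U p ((-1 : ℚ) ^ b) := by
    rcases neg_one_pow_eq_or ℚ b with h | h <;> rw [h]
    · exact U.one
    · exact U_neg U.one
  have h1 := (Q.refl um).mul h
  have s1 : ((-1 : ℚ)) ^ b * (-1) ^ b = 1 := by rw [← mul_pow]; norm_num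
  have e1 : (-1 : ℚ) ^ b * ∏ i ∈ range b, (-c * p - ((a + b : ℕ) : ℚ) + i) = ∏ i ∈ range b, (x + i) := by
    have e0 : (-1 : ℚ) ^ b = ∏ i ∈ range b, (-1 : ℚ) := by rw [prod_const, card_range]
    rw [e0, ← prod_mul_distrib, ← prod_range_reflect]
    refine prod_congr rfl fun i hi => ?_
    have hi' := mem_range.1 hi
    rw [Nat.sub_sub, Nat.cast_sub (show 1 + i ≤ b by omega), hx]
    push_cast; ring
  rw [e1, ← mul_assoc, s1, one_mul] at h1
  have e2 : 0 + - -c * (p * H (a + b) - p * H a) = c * (p * H (a + b) - p * H a) := by ring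
  rwa [e2] at h1

/-- descending harmonic sums -/
theorem descS {a b : ℕ} (hb : b ≤ a) (ha : a < p) {c x : ℚ} (hc : c ∈ Zp p) (hx : x = c * p - a) :
    I p 2 (p * ∑ i ∈ range b, (x + i)⁻¹ + (p * H a - p * H (a - b))) := by
  have h1 : I p 1 (∑ i ∈ range b, ((x + i)⁻¹ + ((a : ℚ) - i)⁻¹)) := by
    refine I.sum fun i hi => ?_
    have hi' := mem_range.1 hi
    have u1 := U_sub_nat (p := p) (a := a) (i := i) (by omega) ha
    have h := inv_add u1 (Ipc hc).neg
    have e1 : (x + i)⁻¹ + ((a : ℚ) - i)⁻¹ = -(((a : ℚ) - i + -(c * p))⁻¹ - ((a : ℚ) - i)⁻¹) := by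
      have : x + i = -((a : ℚ) - i + -(c * p)) := by rw [hx]; ring
      rw [this, inv_neg]; ring
    rw [e1]; exact h.neg
  rw [sum_add_distrib, H_sub a b hb] at h1
  have h2 := (I_p (p := p)).mul h1
  have e2 : (p : ℚ) * (∑ i ∈ range b, (x + i)⁻¹ + (H a - H (a - b))) =
      p * ∑ i ∈ range b, (x + i)⁻¹ + (p * H a - p * H (a - b)) := by ring
  rwa [e2] at h2

/-- ascending harmonic sums -/
theorem ascS {a b : ℕ} (ha : a + b < p) {c x : ℚ} (hc : c ∈ Zp p) (hx : x = a + 1 + c * p) :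
    I p 2 (p * ∑ i ∈ range b, (x + i)⁻¹ - (p * H (a + b) - p * H a)) := by
  have h := descS (p := p) (a := a + b) (b := b) (by omega) ha (c := -c)
    (x := -c * p - ((a + b : ℕ) : ℚ)) (neg_mem hc) rfl
  rw [Nat.add_sub_cancel] at h
  have e1 : ∑ i ∈ range b, (-c * p - ((a + b : ℕ) : ℚ) + i)⁻¹ = -∑ i ∈ range b, (x + i)⁻¹ := by
    rw [← sum_neg_distrib, ← sum_range_reflect]
    refine sum_congr rfl fun i hi => ?_
    have hi' := mem_range.1 hi
    rw [← inv_neg]
    congr 1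
    rw [Nat.sub_sub, Nat.cast_sub (show 1 + i ≤ b by omega), hx]
    push_cast; ring
  rw [e1] at h
  have h2 := h.neg
  have e2 : -(p * -∑ i ∈ range b, (x + i)⁻¹ + (p * H (a + b) - p * H a)) =
      p * ∑ i ∈ range b, (x + i)⁻¹ - (p * H (a + b) - p * H a) := by ring
  rwa [e2] at h2

omit hp in
theorem H_succ' (n : ℕ) : H (n + 1) = H n + 1 / ((n : ℚ) + 1) := by
  unfold H
  rw [sum_range_succ]

/-- duplication of factorials -/
theorem fac_dup (m : ℕ) : ((2 * m).factorial : ℚ) = 4 ^ m * m.factorial * ∏ i ∈ range m, (1 / 2 + i : ℚ) := by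
  induction m with
  | zero => simp
  | succ m ih =>
    rw [show 2 * (m + 1) = 2 * m + 1 + 1 by ring, Nat.factorial_succ, Nat.factorial_succ,
      Nat.factorial_succ m, prod_range_succ, pow_succ]
    push_cast
    rw [ih]
    ring

theorem fac_dup1 (m : ℕ) : ((2 * m + 1).factorial : ℚ) =
    2 * 4 ^ m * m.factorial * ∏ i ∈ range (m + 1), (1 / 2 + i : ℚ) := by
  rw [Nat.factorial_succ, prod_range_succ]
  push_cast
  rw [fac_dup]
  ring

/-- triplication of factorials -/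
theorem fac_trip (m : ℕ) : ((3 * m).factorial : ℚ) = 27 ^ m * m.factorial *
    ((∏ i ∈ range m, (1 / 3 + i : ℚ)) * ∏ i ∈ range m, (2 / 3 + i : ℚ)) := by
  induction m with
  | zero => simp
  | succ m ih =>
    rw [show 3 * (m + 1) = 3 * m + 1 + 1 + 1 by ring, Nat.factorial_succ, Nat.factorial_succ,
      Nat.factorial_succ, Nat.factorial_succ m, prod_range_succ, prod_range_succ, pow_succ]
    push_cast
    rw [ih]
    ring

theorem fac_trip1 (m : ℕ) : ((3 * m + 1).factorial : ℚ) = 3 * 27 ^ m * m.factorial *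
    ((∏ i ∈ range (m + 1), (1 / 3 + i : ℚ)) * ∏ i ∈ range m, (2 / 3 + i : ℚ)) := by
  rw [Nat.factorial_succ, prod_range_succ]
  push_cast
  rw [fac_trip]
  ring

theorem H_dup (m : ℕ) : 2 * H (2 * m) = H m + ∑ i ∈ range m, (1 / 2 + i : ℚ)⁻¹ := by
  induction m with
  | zero => simp [H]
  | succ m ih =>
    rw [show 2 * (m + 1) = 2 * m + 1 + 1 by ring, H_succ', H_succ', H_succ' m, sum_range_succ]
    have h1 : ((m : ℚ) + 1) ≠ 0 := by positivity
    have h2 : (2 * (m : ℚ) + 1) ≠ 0 := by positivity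
    have h3 : ((1 / 2 : ℚ) + m)⁻¹ = 2 / (2 * m + 1) := by
      have : ((1 / 2 : ℚ) + m) = (2 * m + 1) / 2 := by ring
      rw [this, inv_div]
    rw [h3]
    have h4 : (1 : ℚ) / (((2 * m + 1 : ℕ) : ℚ) + 1) = 1 / 2 * (1 / (m + 1)) := by
      push_cast
      have : (2 * (m : ℚ) + 1 + 1) = 2 * (m + 1) := by ring
      rw [this]; field_simp
    rw [h4]
    push_cast
    linear_combination ih

theorem H_dup1 (m : ℕ) : 2 * H (2 * m + 1) = H m + ∑ i ∈ range (m + 1), (1 / 2 + i : ℚ)⁻¹ := by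
  rw [H_succ', sum_range_succ]
  have h3 : ((1 / 2 : ℚ) + m)⁻¹ = 2 / (2 * m + 1) := by
    have : ((1 / 2 : ℚ) + m) = (2 * m + 1) / 2 := by ring
    rw [this, inv_div]
  rw [h3]
  push_cast
  linear_combination H_dup m

theorem H_trip (m : ℕ) : 3 * H (3 * m) = H m + (∑ i ∈ range m, (1 / 3 + i : ℚ)⁻¹ +
    ∑ i ∈ range m, (2 / 3 + i : ℚ)⁻¹) := by
  induction m with
  | zero => simp [H]
  | succ m ih =>
    rw [show 3 * (m + 1) = 3 * m + 1 + 1 + 1 by ring, H_succ', H_succ', H_succ', H_succ' m,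
      sum_range_succ, sum_range_succ]
    have h3 : ((1 / 3 : ℚ) + m)⁻¹ = 3 / (3 * m + 1) := by
      have : ((1 / 3 : ℚ) + m) = (3 * m + 1) / 3 := by ring
      rw [this, inv_div]
    have h5 : ((2 / 3 : ℚ) + m)⁻¹ = 3 / (3 * m + 1 + 1) := by
      have : ((2 / 3 : ℚ) + m) = (3 * m + 1 + 1) / 3 := by ring
      rw [this, inv_div]
    rw [h3, h5]
    have h4 : (1 : ℚ) / (((3 * m + 1 + 1 : ℕ) : ℚ) + 1) = 1 / 3 * (1 / (m + 1)) := by
      push_cast
      have : (3 * (m : ℚ) + 1 + 1 + 1) = 3 * (m + 1) := by ring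
      rw [this]
      have h1 : ((m : ℚ) + 1) ≠ 0 := by positivity
      field_simp
    rw [h4]
    push_cast
    linear_combination ih

theorem H_trip1 (m : ℕ) : 3 * H (3 * m + 1) = H m + (∑ i ∈ range (m + 1), (1 / 3 + i : ℚ)⁻¹ +
    ∑ i ∈ range m, (2 / 3 + i : ℚ)⁻¹) := by
  rw [H_succ', sum_range_succ]
  have h3 : ((1 / 3 : ℚ) + m)⁻¹ = 3 / (3 * m + 1) := by
    have : ((1 / 3 : ℚ) + m) = (3 * m + 1) / 3 := by ring
    rw [this, inv_div]
  rw [h3]
  push_cast
  linear_combination H_trip m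

end Pool.Agent.T6.H7.SB
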