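import Mathlib
import Pool.Agent.T6.H7.SB.QC
import Pool.Agent.T6.H7.SB.F12
import Pool.Agent.R488.Sq.W

set_option autoImplicit false

/-!
`∑ C(-1/4,k)^2 4^k` modulo `p^2`, `p = 12M+7`.
-/

namespace Pool.Agent.T6.H7.SB

open Finset Pool.Agent.R439.PL Pool.Agent.R439.PL.S4 Pool.Agent.R488.Tri Pool.Agent.R488.Cub
  Pool.Agent.R488.Nin Pool.Agent.R488.Sq

variable {p j M : ℕ} [hp : Fact p.Prime]

def ks (s : ℚ) (k : ℕ) : ℚ := 4 ^ k * ∏ i ∈ range k,
  ((1 / 4 + i - s) * (1 / 4 + i - 3 * s) * ((1 + i - 4 * s) * (1 + i))⁻¹)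

def KS (p : ℕ) (s : ℚ) : ℚ := ∑ k ∈ range p, ks s k

theorem lin_KS (hpj : p = 6 * j + 1) : Lin p (KS p) := by
  have u3 := U3 hpj
  have u4 := U4 hpj
  have m14 : (1 / 4 : ℚ) ∈ Zp p := by rw [one_div]; exact u4.2.2
  refine Lin.sum fun k hk => ?_
  have hk' := mem_range.1 hk
  have h1 : Lin p (fun u => (4 : ℚ) ^ k + 0 * u) := Lin.affine (pow_mem u4.2.1 _) (zero_mem _)
  have h2 : Lin p (fun u => ∏ i ∈ range k,
      (((1 / 4 + i : ℚ) + (-1) * u) * ((1 / 4 + i : ℚ) + (-3) * u) *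
        (((1 + i : ℚ) + (-4) * u) * ((1 + i : ℚ) + 0 * u))⁻¹)) := by
    refine Lin.prod fun i hi => ?_
    have hi' := mem_range.1 hi
    have a1 : (1 / 4 + i : ℚ) ∈ Zp p := add_mem m14 (nat_mem i)
    have u1 := U_nat (p := p) (k := 1 + i) (by omega) (by omega)
    push_cast at u1
    refine ((Lin.affine a1 (neg_mem (one_mem _))).mul (Lin.affine a1 (neg_mem u3.2.1))).mul
      (Lin.inv ((Lin.affine u1.2.1 (neg_mem u4.2.1)).mul (Lin.affine u1.2.1 (zero_mem _))) ?_)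
    simpa using u1.mul u1
  have h3 := h1.mul h2
  have e : (fun u => ((4 : ℚ) ^ k + 0 * u) * ∏ i ∈ range k,
      (((1 / 4 + i : ℚ) + (-1) * u) * ((1 / 4 + i : ℚ) + (-3) * u) *
        (((1 + i : ℚ) + (-4) * u) * ((1 + i : ℚ) + 0 * u))⁻¹)) = fun u => ks u k := by
    funext u
    rw [ks, zero_mul, add_zero]
    congr 1
    refine prod_congr rfl fun i _ => ?_
    rw [add_zero]
    congr 1
    · ring
    · congr 2; ring
  rwa [e] at h3

omit hp in
/-- reversal of a terminating sum of products -/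
theorem rev_sum (n : ℕ) (r : ℕ → ℚ) (h : ∀ i < n, r i ≠ 0) :
    ∑ k ∈ range (n + 1), ∏ i ∈ range k, r i =
    (∏ i ∈ range n, r i) * ∑ k ∈ range (n + 1), ∏ i ∈ range k, (r (n - 1 - i))⁻¹ := by
  rw [← sum_range_reflect, mul_sum]
  refine sum_congr rfl fun k hk => ?_
  have hk' : k ≤ n := by have := mem_range.1 hk; omega
  rw [show n + 1 - 1 - k = n - k by omega]
  clear hk
  induction k with
  | zero => simp
  | succ k ih =>
    rw [prod_range_succ, ← mul_assoc, ← ih (by omega)]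
    have e : n - k = (n - (k + 1)) + 1 := by omega
    rw [e, prod_range_succ, show n - 1 - k = n - (k + 1) by omega, mul_assoc,
      mul_inv_cancel₀ (h _ (by omega)), mul_one]

theorem ks_prod (s : ℚ) (k : ℕ) : ks s k = ∏ i ∈ range k,
    (4 * ((1 / 4 + i - s) * (1 / 4 + i - 3 * s) * ((1 + i - 4 * s) * (1 + i))⁻¹)) := by
  have e0 : (4 : ℚ) ^ k = ∏ i ∈ range k, (4 : ℚ) := by rw [prod_const, card_range]
  rw [ks, e0, ← prod_mul_distrib]

/-- `2^((p-1)/2)` modulo `p^2` -/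
theorem pow8 (hpM : p = 12 * M + 7) (hjM : j = 2 * M + 1) {a : ℚ} (ha : a = 64 ^ j - 1)
    (Ia : I p 1 a) : EQ p 2 ((8 : ℚ) ^ j) ((-1) ^ M * (1 + 1 / 2 * a)) := by
  have hpj : p = 6 * j + 1 := by omega
  have u2 := U2 hpj
  have u4 := U4 hpj
  have hp2 : p ≠ 2 := by omega
  have hleg : (p : ℤ) ∣ 8 ^ j - (-1) ^ M := by
    have h1 := legendreSym.at_two hp2
    have h2 := legendreSym.eq_pow p 2
    rw [h1] at h2
    have h3 : ZMod.χ₈ (p : ZMod 8) = (-1) ^ M := by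
      rcases Nat.even_or_odd M with ⟨m, hm⟩ | ⟨m, hm⟩
      · have : ((p : ℕ) : ZMod 8) = 7 := by
          have e : p = 8 * (3 * m) + 7 := by omega
          rw [e]; push_cast
          have : (8 : ZMod 8) = 0 := by decide
          rw [this]; ring
        rw [this, hm, Even.neg_one_pow ⟨m, rfl⟩]; decide
      · have : ((p : ℕ) : ZMod 8) = 3 := by
          have e : p = 8 * (3 * m + 2) + 3 := by omega
          rw [e]; push_cast
          have : (8 : ZMod 8) = 0 := by decide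
          rw [this]; ring
        rw [this, hm, Odd.neg_one_pow ⟨m, rfl⟩]; decide
    rw [h3, show p / 2 = 3 * j by omega, pow_mul] at h2
    rw [← ZMod.intCast_zmod_eq_zero_iff_dvd]
    push_cast at h2 ⊢
    rw [h2]
    norm_num
  have hI : I p 1 ((8 : ℚ) ^ j - (-1) ^ M) := by
    have := Pool.Agent.R488.Tw.I_of_dvd (p := p) (k := 1) (x := 8 ^ j - (-1) ^ M) (by simpa using hleg)
    push_cast at this
    exact this
  obtain ⟨σ, hσ⟩ : ∃ σ : ℚ, σ = (-1) ^ M := ⟨_, rfl⟩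
  have hσ2 : σ * σ = 1 := by rw [hσ, ← mul_pow]; norm_num
  rw [← hσ] at hI ⊢
  have mσ : σ ∈ Zp p := by rw [hσ]; exact pow_mem (neg_mem (one_mem _)) _
  have m12 : (1 / 2 : ℚ) ∈ Zp p := by rw [one_div]; exact u2.2.2
  obtain ⟨y, hy⟩ : ∃ y : ℚ, y = σ * (8 : ℚ) ^ j - 1 := ⟨_, rfl⟩
  have Iy : I p 1 y := by
    have e : y = σ * ((8 : ℚ) ^ j - σ) := by rw [hy]; linear_combination (1 : ℚ) * hσ2
    rw [e]; exact hI.mulL mσ
  have h64 : (64 : ℚ) ^ j = 8 ^ j * 8 ^ j := by rw [← mul_pow]; norm_num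
  have hya : 2 * y + y * y = a := by
    rw [ha, h64, hy]
    linear_combination (8 ^ j * 8 ^ j) * hσ2
  have h8 : (8 : ℚ) ^ j = σ * (1 + y) := by
    rw [hy]; linear_combination (-(8 : ℚ) ^ j) * hσ2
  rw [h8]
  refine ⟨mul_mem mσ (U_small Iy).2.1, mul_mem mσ (U_small (Ia.mulL m12)).2.1, ?_⟩
  have e : σ * (1 + y) - σ * (1 + 1 / 2 * a) = (y * y) * (-(1 / 2) * σ) := by rw [← hya]; ring
  rw [e]
  exact (Iy.mul Iy).mulR (mul_mem (neg_mem m12) mσ)

theorem S1_seven (hA : R488.Th.StmtA) (hC : R488.Th.StmtC) (hV : R488.Th.StmtV)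
    (hW : R488.Th.StmtW) (hpM : p = 12 * M + 7) (hjM : j = 2 * M + 1) {a b : ℚ}
    (ha : a = 64 ^ j - 1) (hb : b = (-27) ^ j - 1) : EQ p 2 (KS p 0)
    (2 * ((-1) ^ M * (3 / 2 * (3 * 27 ^ M * ((1 + -(1 / 2) * b) *
      (((4 * j).choose (2 * j) : ℚ) * ((16 ^ j)⁻¹ * (1 + 2 / 3 * a)))))))) := by
  have hpj : p = 6 * j + 1 := by omega
  obtain ⟨F1, F2⟩ := F12 (p := p) hA hC hV hW hpM hjM ha hb
  obtain ⟨a', b', C4, C3, C2, hC4, hC3, hC2, ha', hb', Ia, Ib, uC4, mC3, mC2, E3, E2, E1, e1, e6⟩ :=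
    facts harm hpj
  rw [← ha] at ha'
  rw [← hb] at hb'
  have ha2 : a = a' := ha'.symm
  have hb2 : b = b' := hb'.symm
  clear ha' hb'
  subst ha2 hb2
  have hj := j_pos hpj
  have hpq : (p : ℚ) = 12 * M + 7 := by exact_mod_cast hpM
  have u2 := U2 hpj
  have u3 := U3 hpj
  have u4 := U4 hpj
  have u27 : U p (27 : ℚ) := by
    have : (27 : ℚ) = 3 * 3 * 3 := by norm_num
    rw [this]; exact (u3.mul u3).mul u3
  have m12 : (1 / 2 : ℚ) ∈ Zp p := by rw [one_div]; exact u2.2.2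
  have m12' : (-(1 / 2) : ℚ) ∈ Zp p := neg_mem m12
  have m13 : (1 / 3 : ℚ) ∈ Zp p := by rw [one_div]; exact u3.2.2
  have m13' : (-(1 / 3) : ℚ) ∈ Zp p := neg_mem m13
  have m32 : (3 / 2 : ℚ) ∈ Zp p := by rw [div_eq_mul_inv]; exact mul_mem u3.2.1 u2.2.2
  have m34 : (3 / 4 : ℚ) ∈ Zp p := by rw [div_eq_mul_inv]; exact mul_mem u3.2.1 u4.2.2
  have m5 : (5 : ℚ) ∈ Zp p := by exact_mod_cast nat_mem (p := p) 5
  have m9 : (9 : ℚ) ∈ Zp p := by exact_mod_cast nat_mem (p := p) 9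
  have m52' : (-(5 / 2) : ℚ) ∈ Zp p := by rw [div_eq_mul_inv]; exact neg_mem (mul_mem m5 u2.2.2)
  have m92 : (9 / 2 : ℚ) ∈ Zp p := by rw [div_eq_mul_inv]; exact mul_mem m9 u2.2.2
  have m2' : (-2 : ℚ) ∈ Zp p := neg_mem u2.2.1
  have hd4 : I p 1 ((p : ℚ) / 4) := by rw [div_eq_mul_inv]; exact (I_p (p := p)).mulR u4.2.2
  have hd34 : I p 1 (3 * (p : ℚ) / 4) := by
    have : 3 * (p : ℚ) / 4 = p * (3 / 4) := by ring
    rw [this]; exact (I_p (p := p)).mulR m34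
  have h0 := Lin.two (lin_KS hpj) hd4 hd34 m32 m12' (by norm_num) (by ring)
  -- symbols
  obtain ⟨f3, hf3⟩ : ∃ f3 : ℚ, f3 = ((3 * M + 1).factorial : ℚ) := ⟨_, rfl⟩
  obtain ⟨f12, hf12⟩ : ∃ f12 : ℚ, f12 = ((12 * M + 6).factorial : ℚ) := ⟨_, rfl⟩
  obtain ⟨h1, hh1⟩ : ∃ h1 : ℚ, h1 = p * H M := ⟨_, rfl⟩
  obtain ⟨h2, hh2⟩ : ∃ h2 : ℚ, h2 = p * H (2 * M + 1) := ⟨_, rfl⟩
  obtain ⟨h3, hh3⟩ : ∃ h3 : ℚ, h3 = p * H (3 * M + 1) := ⟨_, rfl⟩
  obtain ⟨h4, hh4⟩ : ∃ h4 : ℚ, h4 = p * H (4 * M + 2) := ⟨_, rfl⟩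
  obtain ⟨h5, hh5⟩ : ∃ h5 : ℚ, h5 = p * H (5 * M + 2) := ⟨_, rfl⟩
  obtain ⟨h6, hh6⟩ : ∃ h6 : ℚ, h6 = p * H (6 * M + 3) := ⟨_, rfl⟩
  obtain ⟨h12, hh12⟩ : ∃ h12 : ℚ, h12 = p * H (12 * M + 6) := ⟨_, rfl⟩
  have hH0 : H 0 = 0 := by simp [H]
  have uf3 : U p f3 := by rw [hf3]; exact U_fac (by omega)
  have uf12 : U p f12 := by rw [hf12]; exact U_fac (by omega)
  -- harmonic facts
  rw [hjM, show 3 * (2 * M + 1) = 6 * M + 3 by ring, ← hh6] at E3
  rw [hjM, show 2 * (2 * M + 1) = 4 * M + 2 by ring, ← hh4] at E2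
  rw [hjM, ← hh2] at E1
  have r6 : I p 2 (h6 + 2 * a) := by
    have e : h6 + 2 * a = h6 - -2 * a := by ring
    rw [e]; exact E3.2.2
  have r4 : I p 2 (h4 + 3 * b) := by
    have e : h4 + 3 * b = h4 - -3 * b := by ring
    rw [e]; exact E2.2.2
  have r2 : I p 2 (h2 + 2 * a + 3 * b) := by
    have e : h2 + 2 * a + 3 * b = h2 - (-2 * a - 3 * b) := by ring
    rw [e]; exact E1.2.2
  have r12 : I p 2 h12 := by
    have h := (I_p (p := p)).mul (Hp1 hpj)
    rw [show 6 * j = 12 * M + 6 by omega, ← hh12] at h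
    exact h
  have rD : I p 2 (2 * h2 - h1 + (h6 - h5)) := by
    have s := descS (p := p) (a := 6 * M + 3) (b := M + 1) (by omega) (by omega) m12 (x := 1 / 2)
      (by rw [hpq]; push_cast; ring)
    rw [show 6 * M + 3 - (M + 1) = 5 * M + 2 by omega, ← hh6, ← hh5] at s
    have e := H_dup1 M
    have e' : 2 * h2 - h1 + (h6 - h5) = p * ∑ i ∈ range (M + 1), (1 / 2 + i : ℚ)⁻¹ + (h6 - h5) := by
      rw [hh2, hh1]; linear_combination (p : ℚ) * e
    rw [e']; exact s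
  have rT : I p 2 (3 * h3 - h1 + (h4 - h3) - (h5 - h4)) := by
    have s := descS (p := p) (a := 4 * M + 2) (b := M + 1) (by omega) (by omega) m13 (x := 1 / 3)
      (by rw [hpq]; push_cast; ring)
    rw [show 4 * M + 2 - (M + 1) = 3 * M + 1 by omega, ← hh4, ← hh3] at s
    have t := ascS (p := p) (a := 4 * M + 2) (b := M) (by omega) m13' (x := 2 / 3)
      (by rw [hpq]; push_cast; ring)
    rw [show 4 * M + 2 + M = 5 * M + 2 by omega, ← hh4, ← hh5] at t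
    have e := H_trip1 M
    have e' : 3 * h3 - h1 + (h4 - h3) - (h5 - h4) =
        (p * ∑ i ∈ range (M + 1), (1 / 3 + i : ℚ)⁻¹ + (h4 - h3)) +
        (p * ∑ i ∈ range M, (2 / 3 + i : ℚ)⁻¹ - (h5 - h4)) := by
      rw [hh3, hh1]; linear_combination (p : ℚ) * e
    rw [e']; exact s.add t
  have r3 : I p 2 (h3 + 3 * a) := by
    refine u2.cancel ?_
    have e : 2 * (h3 + 3 * a) = (3 * h3 - h1 + (h4 - h3) - (h5 - h4)) - (2 * h2 - h1 + (h6 - h5)) +
        -2 * (h4 + 3 * b) + 2 * (h2 + 2 * a + 3 * b) + (h6 + 2 * a) := by ring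
    rw [e]
    exact ((((rT.sub rD).add (r4.mulL m2')).add (r2.mulL u2.2.1)).add r6)
  -- the factor for s = 3p/4 and s = p/4
  obtain ⟨n, hn⟩ : ∃ n, n = 9 * M + 5 := ⟨_, rfl⟩
  have hnp : n < p := by omega
  have hnq : (n : ℚ) = 9 * M + 5 := by rw [hn]; push_cast; ring
  have nfac : (∏ i ∈ range n, ((i : ℚ) - n)) = (-1) ^ n * ∏ i ∈ range n, (1 + (i : ℚ)) := by
    rw [← prod_range_reflect, ← card_range n, ← prod_const, card_range, ← prod_mul_distrib]
    refine prod_congr rfl fun i hi => ?_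
    have hi' := mem_range.1 hi
    rw [Nat.sub_sub, Nat.cast_sub (show 1 + i ≤ n by omega)]
    push_cast; ring
  have n1fac : (∏ i ∈ range n, (1 + (i : ℚ))) ≠ 0 := prod_ne_zero_iff.2 fun i _ => by positivity
  have hsgn : ((-1 : ℚ) ^ n) * (-1) ^ n = 1 := by rw [← mul_pow]; norm_num
  have hsgn0 : ((-1 : ℚ) ^ n) ≠ 0 := pow_ne_zero _ (by norm_num)
  have q4n : Q p ((4 : ℚ) ^ n) (2 * (-1) ^ M) (3 / 2 * a) := by
    have I12a : I p 1 (1 / 2 * a) := Ia.mulL m12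
    have um : U p ((-1 : ℚ) ^ M) := by
      rcases neg_one_pow_eq_or ℚ M with h | h <;> rw [h]
      · exact U.one
      · exact U_neg U.one
    have t := Q.of um I12a (pow8 hpM hjM ha Ia)
    have t2 := (Q.refl u2).mul ((t.mul t).mul t)
    have e1 : (2 : ℚ) * (8 ^ j * 8 ^ j * 8 ^ j) = 4 ^ n := by
      have k1 : (8 : ℚ) ^ j * 8 ^ j * 8 ^ j = 2 ^ (9 * j) := by
        rw [← mul_pow, ← mul_pow, pow_mul]; norm_num
      have k2 : (4 : ℚ) ^ n = 2 ^ (9 * j + 1) := by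
        have : (4 : ℚ) = 2 ^ 2 := by norm_num
        rw [this, ← pow_mul]; congr 1; omega
      rw [k1, k2, pow_succ]; ring
    have e2 : (2 : ℚ) * ((-1) ^ M * (-1) ^ M * (-1) ^ M) = 2 * (-1) ^ M := by
      have : ((-1 : ℚ) ^ M) * (-1) ^ M = 1 := by rw [← mul_pow]; norm_num
      rw [this, one_mul]
    have e3 : 0 + (1 / 2 * a + 1 / 2 * a + 1 / 2 * a) = 3 / 2 * a := by ring
    rw [e1, e2, e3] at t2
    exact t2
  have hV1 : KS p (3 * p / 4) = (4 ^ n * (((-1) ^ n) * ((∏ i ∈ range n, (1 / 4 - 9 * p / 4 + i : ℚ)) /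
      ∏ i ∈ range n, (1 - 3 * p + i : ℚ)))) * R488.Th.HT p (3 * p / 4) := by
    have e : ∀ k, ks (3 * p / 4) k = ∏ i ∈ range k,
        (4 * (((i : ℚ) - n) * (1 / 4 - 9 * p / 4 + i) * (((1 : ℚ) - 3 * p + i) * (1 + i))⁻¹)) := by
      intro k
      rw [ks_prod]
      refine prod_congr rfl fun i _ => ?_
      have e1 : (1 / 4 + i - 3 * (p : ℚ) / 4) = i - n := by rw [hpq, hnq]; ring
      have e2 : (1 / 4 + i - 3 * (3 * (p : ℚ) / 4)) = 1 / 4 - 9 * p / 4 + i := by ring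
      have e3 : (1 + i - 4 * (3 * (p : ℚ) / 4)) = 1 - 3 * p + i := by ring
      rw [e1, e2, e3]
    have hr : ∀ i < n, (4 * (((i : ℚ) - n) * (1 / 4 - 9 * p / 4 + i) * (((1 : ℚ) - 3 * p + i) * (1 + i))⁻¹)) ≠ 0 := by
      intro i hi
      have hiq : (i : ℚ) + 1 ≤ n := by exact_mod_cast hi
      have a1 : ((i : ℚ) - n) ≠ 0 := by intro h; linarith
      have hM0 : (0 : ℚ) ≤ M := by positivity
      have a2 : (1 / 4 - 9 * (p : ℚ) / 4 + i) ≠ 0 := by
        intro h; rw [hpq] at h; rw [hnq] at hiq; linarith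
      have a3 : (1 - 3 * (p : ℚ) + i) ≠ 0 := by
        intro h; rw [hpq] at h; rw [hnq] at hiq; linarith
      have a4 : (1 + (i : ℚ)) ≠ 0 := by positivity
      exact mul_ne_zero (by norm_num) (mul_ne_zero (mul_ne_zero a1 a2) (inv_ne_zero (mul_ne_zero a3 a4)))
    have h1 : KS p (3 * p / 4) = ∑ k ∈ range (n + 1), ∏ i ∈ range k,
        (4 * (((i : ℚ) - n) * (1 / 4 - 9 * p / 4 + i) * (((1 : ℚ) - 3 * p + i) * (1 + i))⁻¹)) := by
      rw [KS, sum_congr rfl fun k _ => e k]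
      symm
      refine sum_subset (range_subset_range.2 (by omega)) fun k _ hk => ?_
      refine prod_eq_zero (i := n) (mem_range.2 (by have := mt mem_range.2 hk; omega)) ?_
      rw [sub_self]; ring
    have h2 : R488.Th.HT p (3 * p / 4) = ∑ k ∈ range (n + 1), R488.Th.FA n k := by
      rw [R488.Th.HT, sum_congr rfl fun k _ => R488.Th.b_one hpM k, ← hn]
      symm
      exact sum_subset (range_subset_range.2 (by omega)) fun k _ hk =>
        R488.Th.FA_zero (by have := mt mem_range.2 hk; omega)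
    rw [h1, h2, rev_sum n _ hr]
    congr 1
    · rw [prod_mul_distrib, prod_const, card_range, prod_mul_distrib, prod_mul_distrib, prod_inv_distrib,
        prod_mul_distrib, nfac]
      congr 1
      generalize (∏ i ∈ range n, (1 / 4 - 9 * (p : ℚ) / 4 + i)) = y1
      generalize (∏ i ∈ range n, (1 - 3 * (p : ℚ) + i)) = y2
      generalize (∏ i ∈ range n, (1 + (i : ℚ))) = y3 at n1fac
      have hy := mul_inv_cancel₀ n1fac
      linear_combination ((-1) ^ n * y1 * y2⁻¹) * hy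
    · refine sum_congr rfl fun k hk => ?_
      have hk' := mem_range.1 hk
      rw [R488.Th.FA]
      refine prod_congr rfl fun i hi => ?_
      have hi' := mem_range.1 hi
      have hiq : (i : ℚ) + 1 ≤ n := by exact_mod_cast (show i + 1 ≤ n by omega)
      have hi0 : (0 : ℚ) ≤ i := by positivity
      have hM0 : (0 : ℚ) ≤ M := by positivity
      rw [Nat.sub_sub, Nat.cast_sub (show 1 + i ≤ n by omega)]
      push_cast
      have e1 : (n : ℚ) - (1 + i) - n = -(1 + i) := by ring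
      have e2 : 1 / 4 - 9 * (p : ℚ) / 4 + (n - (1 + i)) = -(2 * n + 3 / 2 + i) := by rw [hpq, hnq]; ring
      have e3 : 1 - 3 * (p : ℚ) + (n - (1 + i)) = -(3 * n + 1 + i) := by rw [hpq, hnq]; ring
      have e4 : 1 + ((n : ℚ) - (1 + i)) = -(i - n) := by ring
      rw [e1, e2, e3, e4]
      have a1 : (1 + (i : ℚ)) ≠ 0 := by positivity
      have a2 : (2 * (n : ℚ) + 3 / 2 + i) ≠ 0 := by positivity
      have a3 : (3 * (n : ℚ) + 1 + i) ≠ 0 := by positivity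
      have a4 : ((i : ℚ) - n) ≠ 0 := by intro h; linarith
      generalize 1 + (i : ℚ) = z1 at *
      generalize 2 * (n : ℚ) + 3 / 2 + i = z2 at *
      generalize 3 * (n : ℚ) + 1 + i = z3 at *
      generalize (i : ℚ) - n = z4 at *
      field_simp
  have hV2 : KS p (p / 4) = (4 ^ n * (((-1) ^ n) * ((∏ i ∈ range n, (1 / 4 - p / 4 + i : ℚ)) /
      ∏ i ∈ range n, (1 - p + i : ℚ)))) * R488.Th.HT p (-(p / 4)) := by
    have e : ∀ k, ks (p / 4) k = ∏ i ∈ range k,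
        (4 * ((1 / 4 - p / 4 + i) * ((i : ℚ) - n) * (((1 : ℚ) - p + i) * (1 + i))⁻¹)) := by
      intro k
      rw [ks_prod]
      refine prod_congr rfl fun i _ => ?_
      have e1 : (1 / 4 + i - 3 * ((p : ℚ) / 4)) = i - n := by rw [hpq, hnq]; ring
      have e2 : (1 / 4 + i - ((p : ℚ) / 4)) = 1 / 4 - p / 4 + i := by ring
      have e3 : (1 + i - 4 * ((p : ℚ) / 4)) = 1 - p + i := by ring
      rw [e1, e2, e3]
    have hr : ∀ i < n, (4 * ((1 / 4 - p / 4 + i) * ((i : ℚ) - n) * (((1 : ℚ) - p + i) * (1 + i))⁻¹)) ≠ 0 := by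
      intro i hi
      have hiq : (i : ℚ) + 1 ≤ n := by exact_mod_cast hi
      have a1 : ((i : ℚ) - n) ≠ 0 := by intro h; linarith
      have hM0 : (0 : ℚ) ≤ M := by positivity
      have a2 : (1 / 4 - (p : ℚ) / 4 + i) ≠ 0 := by
        intro h
        have h' : (1 - p + 4 * i : ℤ) = 0 := by
          have : (1 - (p : ℚ) + 4 * i) = 0 := by linear_combination 4 * h
          exact_mod_cast this
        omega
      have a3 : (1 - (p : ℚ) + i) ≠ 0 := by
        intro h; rw [hpq] at h; rw [hnq] at hiq; linarith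
      have a4 : (1 + (i : ℚ)) ≠ 0 := by positivity
      exact mul_ne_zero (by norm_num) (mul_ne_zero (mul_ne_zero a2 a1) (inv_ne_zero (mul_ne_zero a3 a4)))
    have h1 : KS p (p / 4) = ∑ k ∈ range (n + 1), ∏ i ∈ range k,
        (4 * ((1 / 4 - p / 4 + i) * ((i : ℚ) - n) * (((1 : ℚ) - p + i) * (1 + i))⁻¹)) := by
      rw [KS, sum_congr rfl fun k _ => e k]
      symm
      refine sum_subset (range_subset_range.2 (by omega)) fun k _ hk => ?_
      refine prod_eq_zero (i := n) (mem_range.2 (by have := mt mem_range.2 hk; omega)) ?_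
      rw [sub_self]; ring
    have h2 : R488.Th.HT p (-(p / 4)) = ∑ k ∈ range (n + 1), R488.Th.FC (3 * M + 1) k := by
      rw [R488.Th.HT, sum_congr rfl fun k _ => R488.Th.b_two hpM k]
      symm
      exact sum_subset (range_subset_range.2 (by omega)) fun k _ hk =>
        R488.Th.FC_zero (by have := mt mem_range.2 hk; omega)
    rw [h1, h2, rev_sum n _ hr]
    congr 1
    · rw [prod_mul_distrib, prod_const, card_range, prod_mul_distrib, prod_mul_distrib, prod_inv_distrib,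
        prod_mul_distrib, nfac]
      congr 1
      generalize (∏ i ∈ range n, (1 / 4 - (p : ℚ) / 4 + i)) = y1
      generalize (∏ i ∈ range n, (1 - (p : ℚ) + i)) = y2
      generalize (∏ i ∈ range n, (1 + (i : ℚ))) = y3 at n1fac
      have hy := mul_inv_cancel₀ n1fac
      linear_combination ((-1) ^ n * y1 * y2⁻¹) * hy
    · refine sum_congr rfl fun k hk => ?_
      have hk' := mem_range.1 hk
      rw [R488.Th.FC]
      refine prod_congr rfl fun i hi => ?_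
      have hi' := mem_range.1 hi
      have hiq : (i : ℚ) + 1 ≤ n := by exact_mod_cast (show i + 1 ≤ n by omega)
      have hi0 : (0 : ℚ) ≤ i := by positivity
      have hM0 : (0 : ℚ) ≤ M := by positivity
      rw [Nat.sub_sub, Nat.cast_sub (show 1 + i ≤ n by omega)]
      push_cast
      have a2 : (2 * (3 * (M : ℚ) + 1) + 1 / 2 - i) ≠ 0 := by
        intro h
        have h' : (12 * M + 5 - 2 * i : ℤ) = 0 := by
          have : (12 * (M : ℚ) + 5 - 2 * i) = 0 := by linear_combination 2 * h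
          exact_mod_cast this
        omega
      have e1 : (n : ℚ) - (1 + i) - n = -(1 + i) := by ring
      have e2 : 1 / 4 - (p : ℚ) / 4 + (n - (1 + i)) = (2 * (3 * M + 1) + 1 / 2 - i) := by
        rw [hpq, hnq]; ring
      have e3 : 1 - (p : ℚ) + (n - (1 + i)) = -(3 * M + 1 + 1 + i) := by rw [hpq, hnq]; ring
      have e4 : 1 + ((n : ℚ) - (1 + i)) = 3 * (3 * M + 1) + 2 - i := by rw [hnq]; ring
      rw [e1, e2, e3, e4]
      have a1 : (1 + (i : ℚ)) ≠ 0 := by positivity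
      have a3 : (3 * (M : ℚ) + 1 + 1 + i) ≠ 0 := by positivity
      have a4 : (3 * (3 * (M : ℚ) + 1) + 2 - i) ≠ 0 := by
        rw [hnq] at hiq
        intro h; linarith
      generalize 1 + (i : ℚ) = z1 at *
      generalize 2 * (3 * (M : ℚ) + 1) + 1 / 2 - i = z2 at *
      generalize 3 * (M : ℚ) + 1 + 1 + i = z3 at *
      generalize 3 * (3 * (M : ℚ) + 1) + 2 - i = z4 at *
      field_simp
  -- the factors modulo p^2
  have hda : (-(5 / 2) : ℚ) ∈ Zp p := m52'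
  have s1 := asc (p := p) (a := 3 * M + 1) (b := n) (by omega) m52' (x := 1 / 4 - 9 * p / 4)
    (by rw [hpq]; push_cast; ring)
  rw [show 3 * M + 1 + n = 12 * M + 6 by omega, ← hh12, ← hh3, ← hf12, ← hf3] at s1
  have s2 := desc (p := p) (a := 12 * M + 6) (b := n) (by omega) (by omega) m2' (x := 1 - 3 * p)
    (by rw [hpq]; push_cast; ring)
  rw [show 12 * M + 6 - n = 3 * M + 1 by omega, ← hh12, ← hh3, ← hf12, ← hf3] at s2
  have s3 := asc (p := p) (a := 3 * M + 1) (b := n) (by omega) m12' (x := 1 / 4 - p / 4)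
    (by rw [hpq]; push_cast; ring)
  rw [show 3 * M + 1 + n = 12 * M + 6 by omega, ← hh12, ← hh3, ← hf12, ← hf3] at s3
  have s4 := desc (p := p) (a := 12 * M + 6) (b := n) (by omega) (by omega) (zero_mem _) (x := 1 - p)
    (by rw [hpq]; push_cast; ring)
  rw [show 12 * M + 6 - n = 3 * M + 1 by omega, ← hh12, ← hh3, ← hf12, ← hf3] at s4
  have usn : U p ((-1 : ℚ) ^ n) := by
    rcases neg_one_pow_eq_or ℚ n with h | h <;> rw [h]
    · exact U.one
    · exact U_neg U.one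
  have eone : (2 : ℚ) * (-1) ^ M * ((-1) ^ n * (f12 / f3 / ((-1) ^ n * (f12 / f3)))) = 2 * (-1) ^ M := by
    have n1 := uf3.1
    have n2 := uf12.1
    generalize (-1 : ℚ) ^ n = y at hsgn0
    field_simp
  have L1 := q4n.mul ((Q.refl usn).mul (s1.div s2))
  rw [eone] at L1
  have L2 := q4n.mul ((Q.refl usn).mul (s3.div s4))
  rw [eone] at L2
  have L1' := L1.congr (e' := -12 * a) (by
    have e : 3 / 2 * a + (0 + (-(5 / 2) * (h12 - h3) - - -2 * (h12 - h3))) - -12 * a =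
        -(9 / 2) * h12 + 9 / 2 * (h3 + 3 * a) := by ring
    rw [e]
    exact (r12.mulL (neg_mem m92)).add (r3.mulL m92))
  have L2' := L2.congr (e' := 0) (by
    have e : 3 / 2 * a + (0 + (-(1 / 2) * (h12 - h3) - -0 * (h12 - h3))) - 0 =
        -(1 / 2) * h12 + 1 / 2 * (h3 + 3 * a) := by ring
    rw [e]
    exact (r12.mulL m12').add (r3.mulL m12))
  have G1 := L1'.2.2.2.mul F1
  have G2 := L2'.2.2.2.mul F2
  rw [← hV1] at G1
  rw [← hV2] at G2
  have g1 := h0.trans (((EQ.refl (k := 2) m32).mul G2).add ((EQ.refl (k := 2) m12').mul G1))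
  refine g1.trans ?_
  have uM : U p ((-1 : ℚ) ^ M) := by
    rcases neg_one_pow_eq_or ℚ M with h | h <;> rw [h]
    · exact U.one
    · exact U_neg U.one
  have u16M : U p ((16 : ℚ) ^ M) := by
    have : (16 : ℚ) = 4 * 4 := by norm_num
    rw [this]; exact (u4.mul u4).pow M
  have u16 : U p (16 : ℚ) := by
    have : (16 : ℚ) = 4 * 4 := by norm_num
    rw [this]; exact u4.mul u4
  rw [← hC4]
  have k : ((16 : ℚ) ^ j)⁻¹ = (16 ^ M * 16 ^ M * 16)⁻¹ := by
    have : (16 : ℚ) ^ j = 16 ^ M * 16 ^ M * 16 := by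
      rw [hjM, pow_succ, pow_mul, ← mul_pow]; norm_num
    rw [this]
  rw [k]
  obtain ⟨W, hW'⟩ : ∃ W : ℚ, W = 2 * (-1) ^ M * (9 / 2 * (27 ^ M * (16 ^ M * 16 ^ M * 16)⁻¹)) * C4 := ⟨_, rfl⟩
  have mW : W ∈ Zp p := by
    rw [hW']
    exact mul_mem (mul_mem (mul_mem u2.2.1 uM.2.1) (mul_mem m92 (mul_mem (u27.pow M).2.1
      ((u16M.mul u16M).mul u16).2.2))) uC4.2.1
  have I12b : I p 1 (-(1 / 2) * b) := Ib.mulL m12'
  have I23a : I p 1 (2 / 3 * a) := by
    have : 2 / 3 * a = (2 * 3⁻¹) * a := by ring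
    rw [this]; exact Ia.mulL (mul_mem u2.2.1 u3.2.2)
  have e1 : 3 / 2 * (2 * (-1) ^ M * (1 + 0) * (9 / 2 * (27 ^ M * (16 ^ M * 16 ^ M * 16)⁻¹) *
        (C4 * (1 + (-(4 / 3) * a + -(1 / 2) * b))))) +
      -(1 / 2) * (2 * (-1) ^ M * (1 + -12 * a) * (9 / 2 * (27 ^ M * (16 ^ M * 16 ^ M * 16)⁻¹) *
        (C4 * (1 + (20 / 3 * a + -(1 / 2) * b))))) =
      W * (3 / 2 * (1 + (-(4 / 3) * a + -(1 / 2) * b)) -
        1 / 2 * ((1 + -12 * a) * (1 + (20 / 3 * a + -(1 / 2) * b)))) := by rw [hW']; ring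
  have e2 : 2 * ((-1) ^ M * (3 / 2 * (3 * 27 ^ M * ((1 + -(1 / 2) * b) *
      (C4 * ((16 ^ M * 16 ^ M * 16)⁻¹ * (1 + 2 / 3 * a))))))) =
      W * ((1 + -(1 / 2) * b) * (1 + 2 / 3 * a)) := by rw [hW']; ring
  rw [e1, e2]
  refine (EQ.refl mW).mul ?_
  refine ⟨?_, mul_mem (U_small I12b).2.1 (U_small I23a).2.1, ?_⟩
  · have m43 : (-(4 / 3) : ℚ) ∈ Zp p := by rw [div_eq_mul_inv]; exact neg_mem (mul_mem u4.2.1 u3.2.2)
    have m203 : (20 / 3 : ℚ) ∈ Zp p := by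
      rw [div_eq_mul_inv]; exact mul_mem (by exact_mod_cast nat_mem (p := p) 20) u3.2.2
    have m12n : (-12 : ℚ) ∈ Zp p := by exact_mod_cast int_mem (p := p) (-12)
    exact sub_mem (mul_mem m32 (U_small ((Ia.mulL m43).add I12b)).2.1)
      (mul_mem m12 (mul_mem (U_small (Ia.mulL m12n)).2.1 (U_small ((Ia.mulL m203).add I12b)).2.1))
  · have m40 : (40 : ℚ) ∈ Zp p := by exact_mod_cast nat_mem (p := p) 40
    have e : 3 / 2 * (1 + (-(4 / 3) * a + -(1 / 2) * b)) -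
        1 / 2 * ((1 + -12 * a) * (1 + (20 / 3 * a + -(1 / 2) * b))) -
        (1 + -(1 / 2) * b) * (1 + 2 / 3 * a) = 40 * (a * a) + (1 / 3 * (a * b) - 3 * (a * b)) := by ring
    rw [e]
    exact ((Ia.mul Ia).mulL m40).add (((Ia.mul Ib).mulL m13).sub ((Ia.mul Ib).mulL u3.2.1))

end Pool.Agent.T6.H7.SB
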