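import Mathlib

set_option autoImplicit false

/-!
A terminating `2F1(-8)`: `F(-n,-3n-1/4;-4n;-8)` in closed form, by a certificate.
-/

namespace Pool.Agent.T6.H7.SB

open Finset

/-- terms of `F(-n,-3n-1/4;-4n;-8)` -/
def FU (n k : ℕ) : ℚ := ∏ i ∈ range k,
  (((i : ℚ) - n) * (i - 3 * n - 1 / 4) / ((i - 4 * n) * (1 + i)) * (-8))

namespace CU

theorem FU_zero (n : ℕ) : FU n 0 = 1 := by simp [FU]

theorem FU_succ (n k : ℕ) : FU n (k + 1) = FU n k *
    (((k : ℚ) - n) * (k - 3 * n - 1 / 4) / ((k - 4 * n) * (1 + k)) * (-8)) := by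
  unfold FU
  rw [prod_range_succ]

theorem top (n : ℕ) : FU n (n + 1) = 0 := by
  rw [FU_succ]; simp

theorem step1 (n k : ℕ) (h : k < n) : FU n (k + 1) = FU n k *
    (2 * ((n : ℚ) - k) * (12 * n + 1 - 4 * k) / ((4 * n - k) * (k + 1))) := by
  rw [FU_succ]
  congr 1
  have hk : (k : ℚ) + 1 ≤ n := by exact_mod_cast h
  have hk0 : (0 : ℚ) ≤ k := by positivity
  have h1 : (4 * (n : ℚ) - k) ≠ 0 := by intro h; linarith
  have h2 : ((k : ℚ) - 4 * n) ≠ 0 := by intro h; linarith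
  have h3 : ((k : ℚ) + 1) ≠ 0 := by positivity
  have h4 : (1 + (k : ℚ)) ≠ 0 := by positivity
  rw [div_mul_eq_mul_div, div_eq_div_iff (mul_ne_zero h2 h4) (mul_ne_zero h1 h3)]
  ring

/-- quotient of `FU (n+1) (k+1)` and `FU n k` -/
def cq (n k : ℚ) : ℚ := 3 / 4 * (12 * n + 5) * (12 * n + 13) * (4 * n + 1 - k) * (4 * n + 2 - k) *
  (4 * n + 3 - k) / ((12 * n + 5 - 4 * k) * (12 * n + 9 - 4 * k) * (4 * n + 1) * (2 * n + 1) * (k + 1))

theorem step2 (n k : ℕ) (h : k ≤ n) : FU (n + 1) (k + 1) = cq n k * FU n k := by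
  induction k with
  | zero =>
    rw [step1 _ _ (by omega), FU_zero, FU_zero]
    unfold cq
    have h1 : (12 * (n : ℚ) + 9) ≠ 0 := by positivity
    have h2 : (12 * (n : ℚ) + 5) ≠ 0 := by positivity
    have h3 : (4 * (n : ℚ) + 1) ≠ 0 := by positivity
    have h4 : (2 * (n : ℚ) + 1) ≠ 0 := by positivity
    have h5 : ((n : ℚ) + 1) ≠ 0 := by positivity
    push_cast
    simp only [mul_zero, sub_zero, zero_add, mul_one, one_mul]
    field_simp
    ring
  | succ k ih =>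
    have hk : (k : ℚ) + 1 ≤ n := by exact_mod_cast h
    have hk0 : (0 : ℚ) ≤ k := by positivity
    rw [step1 (n + 1) (k + 1) (by omega), ih (by omega), step1 n k (by omega)]
    unfold cq
    have h1 : (12 * (n : ℚ) + 5 - 4 * k) ≠ 0 := by intro h; linarith
    have h2 : (12 * (n : ℚ) + 9 - 4 * k) ≠ 0 := by intro h; linarith
    have h2' : (12 * (n : ℚ) + 1 - 4 * k) ≠ 0 := by intro h; linarith
    have h3 : (4 * (n : ℚ) + 1) ≠ 0 := by positivity
    have h4 : (2 * (n : ℚ) + 1) ≠ 0 := by positivity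
    have h5 : ((k : ℚ) + 1) ≠ 0 := by positivity
    have h6 : ((k : ℚ) + 1 + 1) ≠ 0 := by positivity
    have h7 : (4 * (n : ℚ) - k) ≠ 0 := by intro h; linarith
    have h8 : (4 * (n : ℚ) + 3 - k) ≠ 0 := by intro h; linarith
    push_cast
    have e1 : (4 * ((n : ℚ) + 1) - (k + 1)) = 4 * n + 3 - k := by ring
    have e2 : (12 * (n : ℚ) + 5 - 4 * (k + 1)) = 12 * n + 1 - 4 * k := by ring
    have e3 : (12 * (n : ℚ) + 9 - 4 * (k + 1)) = 12 * n + 5 - 4 * k := by ring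
    have e4 : (12 * ((n : ℚ) + 1) + 1 - 4 * (k + 1)) = 12 * n + 9 - 4 * k := by ring
    have e5 : (4 * (n : ℚ) + 1 - (k + 1)) = 4 * n - k := by ring
    have e6 : (4 * (n : ℚ) + 2 - (k + 1)) = 4 * n + 1 - k := by ring
    have e7 : (4 * (n : ℚ) + 3 - (k + 1)) = 4 * n + 2 - k := by ring
    have e8 : ((n : ℚ) + 1 - (k + 1)) = n - k := by ring
    rw [e1, e2, e3, e4, e5, e6, e7, e8]
    generalize FU n k = F
    generalize 12 * (n : ℚ) + 5 - 4 * k = x1 at *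
    generalize 12 * (n : ℚ) + 9 - 4 * k = x2 at *
    generalize 12 * (n : ℚ) + 1 - 4 * k = x3 at *
    generalize 4 * (n : ℚ) + 1 - k = x5 at *
    generalize 4 * (n : ℚ) + 2 - k = x6 at *
    generalize 4 * (n : ℚ) + 3 - k = x7 at *
    generalize 4 * (n : ℚ) - k = x8 at *
    generalize 4 * (n : ℚ) + 1 = x9 at *
    generalize 2 * (n : ℚ) + 1 = x10 at *
    generalize (n : ℚ) - k = x11 at *
    generalize (k : ℚ) + 1 + 1 = x12 at *
    generalize (k : ℚ) + 1 = x13 at *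
    field_simp

/-- the certificate -/
def ct (n k : ℚ) : ℚ := -(3 / 2) * (4 * n + 1 - k) * (12 * n + 5) *
  ((12 * n + 5) * k - 4 * (4 * n + 3) * (2 * n + 1)) / ((12 * n + 5 - 4 * k) * (12 * n + 9 - 4 * k))

theorem ct_succ (n k : ℕ) (h : k ≤ n) : ct n (k + 1) * FU n (k + 1) =
    -3 * (n - k) * (12 * n + 5) * ((12 * n + 5) * (k + 1) - 4 * (4 * n + 3) * (2 * n + 1)) /
      ((12 * n + 5 - 4 * k) * (k + 1)) * FU n k := by
  rcases h.eq_or_lt with rfl | h
  · rw [top]; simp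
  · have hk : (k : ℚ) + 1 ≤ n := by exact_mod_cast h
    have hk0 : (0 : ℚ) ≤ k := by positivity
    rw [step1 n k h]
    unfold ct
    have h1 : (12 * (n : ℚ) + 5 - 4 * k) ≠ 0 := by intro h; linarith
    have h2' : (12 * (n : ℚ) + 1 - 4 * k) ≠ 0 := by intro h; linarith
    have h5 : ((k : ℚ) + 1) ≠ 0 := by positivity
    have h7 : (4 * (n : ℚ) - k) ≠ 0 := by intro h; linarith
    have e2 : (12 * (n : ℚ) + 5 - 4 * (k + 1)) = 12 * n + 1 - 4 * k := by ring
    have e3 : (12 * (n : ℚ) + 9 - 4 * (k + 1)) = 12 * n + 5 - 4 * k := by ring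
    have e5 : (4 * (n : ℚ) + 1 - (k + 1)) = 4 * n - k := by ring
    rw [e2, e3, e5]
    generalize FU n k = F
    generalize (12 * (n : ℚ) + 5) * (k + 1) - 4 * (4 * n + 3) * (2 * n + 1) = y
    generalize 12 * (n : ℚ) + 5 - 4 * k = x1 at *
    generalize 12 * (n : ℚ) + 1 - 4 * k = x3 at *
    generalize 4 * (n : ℚ) - k = x8 at *
    generalize (n : ℚ) - k = x11 at *
    generalize (k : ℚ) + 1 = x13 at *
    field_simp

theorem stepQ (n k F x1 x2 : ℚ) (hx1 : x1 = 12 * n + 5 - 4 * k) (hx2 : x2 = 12 * n + 9 - 4 * k)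
    (h1 : x1 ≠ 0) (h2 : x2 ≠ 0) (h3 : 4 * n + 1 ≠ 0) (h4 : 2 * n + 1 ≠ 0) (h5 : k + 1 ≠ 0) :
    2 * (2 * n + 1) * (4 * n + 1) * ((3 / 4 * (12 * n + 5) * (12 * n + 13) * (4 * n + 1 - k) *
      (4 * n + 2 - k) * (4 * n + 3 - k) / (x1 * x2 * (4 * n + 1) * (2 * n + 1) * (k + 1))) * F) -
      3 * (3 * n + 1) * (12 * n + 5) * F =
    -3 * (n - k) * (12 * n + 5) * ((12 * n + 5) * (k + 1) - 4 * (4 * n + 3) * (2 * n + 1)) /
      (x1 * (k + 1)) * F -
    (-(3 / 2) * (4 * n + 1 - k) * (12 * n + 5) *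
      ((12 * n + 5) * k - 4 * (4 * n + 3) * (2 * n + 1)) / (x1 * x2)) * F := by
  have e1 : 2 * (2 * n + 1) * (4 * n + 1) * ((3 / 4 * (12 * n + 5) * (12 * n + 13) * (4 * n + 1 - k) *
      (4 * n + 2 - k) * (4 * n + 3 - k) / (x1 * x2 * (4 * n + 1) * (2 * n + 1) * (k + 1))) * F) =
      (3 / 2 * (12 * n + 5) * (12 * n + 13) * (4 * n + 1 - k) *
      (4 * n + 2 - k) * (4 * n + 3 - k)) * F / (x1 * x2 * (k + 1)) := by
    clear hx1 hx2
    generalize 4 * n + 1 = y at *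
    generalize 2 * n + 1 = z at *
    field_simp
    ring
  have e2 : -3 * (n - k) * (12 * n + 5) * ((12 * n + 5) * (k + 1) - 4 * (4 * n + 3) * (2 * n + 1)) /
      (x1 * (k + 1)) * F = -3 * (n - k) * (12 * n + 5) *
      ((12 * n + 5) * (k + 1) - 4 * (4 * n + 3) * (2 * n + 1)) * x2 * F / (x1 * x2 * (k + 1)) := by
    field_simp
  have e3 : (-(3 / 2) * (4 * n + 1 - k) * (12 * n + 5) *
      ((12 * n + 5) * k - 4 * (4 * n + 3) * (2 * n + 1)) / (x1 * x2)) * F =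
      -(3 / 2) * (4 * n + 1 - k) * (12 * n + 5) *
      ((12 * n + 5) * k - 4 * (4 * n + 3) * (2 * n + 1)) * (k + 1) * F / (x1 * x2 * (k + 1)) := by
    field_simp
  have e4 : 3 * (3 * n + 1) * (12 * n + 5) * F =
      3 * (3 * n + 1) * (12 * n + 5) * F * (x1 * x2 * (k + 1)) / (x1 * x2 * (k + 1)) := by
    field_simp
  rw [e1, e2, e3, e4, ← sub_div, ← sub_div]
  congr 1
  rw [hx1, hx2]
  ring

theorem step (n k : ℕ) (h : k ≤ n) : 2 * (2 * (n : ℚ) + 1) * (4 * n + 1) * FU (n + 1) (k + 1) -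
    3 * (3 * n + 1) * (12 * n + 5) * FU n k = ct n (k + 1) * FU n (k + 1) - ct n k * FU n k := by
  have hk : (k : ℚ) ≤ n := by exact_mod_cast h
  have hk0 : (0 : ℚ) ≤ k := by positivity
  rw [ct_succ n k h, step2 n k h]
  exact stepQ n k (FU n k) _ _ rfl rfl (by intro h; linarith) (by intro h; linarith) (by positivity)
    (by positivity) (by positivity)

theorem tele (n K : ℕ) (h : K ≤ n + 1) :
    ∑ k ∈ range K, (2 * (2 * (n : ℚ) + 1) * (4 * n + 1) * FU (n + 1) (k + 1) -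
    3 * (3 * n + 1) * (12 * n + 5) * FU n k) = ct n K * FU n K - ct n 0 := by
  induction K with
  | zero => simp [FU_zero]
  | succ K ih =>
    rw [sum_range_succ, ih (by omega), step n K (by omega)]
    push_cast
    ring

theorem S_succ (n : ℕ) : 2 * (2 * (n : ℚ) + 1) * (4 * n + 1) * ∑ k ∈ range (n + 1 + 1), FU (n + 1) k =
    3 * (3 * n + 1) * (12 * n + 5) * ∑ k ∈ range (n + 1), FU n k := by
  have h := tele n (n + 1) le_rfl
  rw [sum_sub_distrib, ← mul_sum, ← mul_sum, top] at h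
  rw [sum_range_succ' (fun k => FU (n + 1) k) (n + 1), FU_zero]
  have c0 : ct n 0 = 2 * (2 * (n : ℚ) + 1) * (4 * n + 1) := by
    unfold ct
    have h1 : (12 * (n : ℚ) + 5) ≠ 0 := by positivity
    have h2 : (12 * (n : ℚ) + 9) ≠ 0 := by positivity
    simp only [mul_zero, sub_zero, zero_sub]
    field_simp
    ring
  rw [c0] at h
  linear_combination h

end CU

open CU

theorem closedU (n : ℕ) : ∑ k ∈ range (n + 1), FU n k =
    ∏ i ∈ range n, (27 / 4 * ((1 / 3 + i) * (5 / 12 + i) / ((1 / 2 + i) * (1 / 4 + i))) : ℚ) := by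
  induction n with
  | zero => simp [FU]
  | succ n ih =>
    have h := S_succ n
    rw [ih] at h
    have h1 : (2 * (2 * (n : ℚ) + 1) * (4 * n + 1)) ≠ 0 := by positivity
    apply mul_left_cancel₀ h1
    rw [h, prod_range_succ]
    have h2 : ((1 : ℚ) / 2 + n) ≠ 0 := by positivity
    have h3 : ((1 : ℚ) / 4 + n) ≠ 0 := by positivity
    generalize (∏ i ∈ range n, (27 / 4 * ((1 / 3 + i) * (5 / 12 + i) / ((1 / 2 + i) * (1 / 4 + i))) : ℚ)) = P
    field_simp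
    ring

end Pool.Agent.T6.H7.SB
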