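import Mathlib

set_option autoImplicit false

/-!
A terminating `2F1(-8)`: `F(1/12-r,-3r;1/3-4r;-8)` in closed form, by a certificate.
-/

namespace Pool.Agent.T6.H7.SB

open Finset

/-- terms of `F(1/12-r,-3r;1/3-4r;-8)` -/
def FX (r k : ℕ) : ℚ := ∏ i ∈ range k,
  (((i : ℚ) + 1 / 12 - r) * (i - 3 * r) / ((i + 1 / 3 - 4 * r) * (1 + i)) * (-8))

namespace CX

theorem FX_zero (r : ℕ) : FX r 0 = 1 := by simp [FX]

theorem FX_succ (r k : ℕ) : FX r (k + 1) = FX r k *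
    (((k : ℚ) + 1 / 12 - r) * (k - 3 * r) / ((k + 1 / 3 - 4 * r) * (1 + k)) * (-8)) := by
  unfold FX
  rw [prod_range_succ]

theorem top (r : ℕ) : FX r (3 * r + 1) = 0 := by
  rw [FX_succ]; push_cast; simp

/-- `3 k + 1 - 12 r` never vanishes -/
theorem ne3 (a k : ℤ) : (3 * (k : ℚ) + 1 - 12 * a) ≠ 0 := by
  intro h
  have h' : (3 * k + 1 - 12 * a : ℤ) = 0 := by exact_mod_cast h
  omega

theorem step1 (r k : ℕ) : FX r (k + 1) = FX r k *
    (2 * (12 * (k : ℚ) + 1 - 12 * r) * (3 * r - k) / ((3 * k + 1 - 12 * r) * (k + 1))) := by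
  rw [FX_succ]
  congr 1
  have h1 := ne3 r k
  push_cast at h1
  have h2 : ((k : ℚ) + 1 / 3 - 4 * r) ≠ 0 := by
    intro h; apply h1; linear_combination 3 * h
  have h3 : ((k : ℚ) + 1) ≠ 0 := by positivity
  have h4 : (1 + (k : ℚ)) ≠ 0 := by positivity
  rw [div_mul_eq_mul_div, div_eq_div_iff (mul_ne_zero h2 h4) (mul_ne_zero h1 h3)]
  ring

/-- quotient of `FX (r+1) (k+3)` and `FX r k` -/
def cq (r k : ℚ) : ℚ := 3 * (12 * k + 1 - 12 * r) * (12 * k + 13 - 12 * r) * (12 * r + 2 - 3 * k) *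
  (3 * r + 1) * (r + 1) / ((12 * r + 5) * (6 * r + 1) * (k + 1) * (k + 2) * (k + 3))

theorem step2 (r k : ℕ) : FX (r + 1) (k + 3) = cq r k * FX r k := by
  induction k with
  | zero =>
    rw [show 0 + 3 = 0 + 1 + 1 + 1 by rfl, step1, step1, step1, FX_zero, FX_zero]
    unfold cq
    have a1 : (12 * (r : ℚ) + 11) ≠ 0 := by positivity
    have a2 : (3 * (r : ℚ) + 2) ≠ 0 := by positivity
    have a3 : (12 * (r : ℚ) + 5) ≠ 0 := by positivity
    have a4 : (6 * (r : ℚ) + 1) ≠ 0 := by positivity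
    have e1 : (3 * ((0 : ℕ) : ℚ) + 1 - 12 * ((r + 1 : ℕ) : ℚ)) = -(12 * r + 11) := by push_cast; ring
    have e2 : (3 * ((0 + 1 : ℕ) : ℚ) + 1 - 12 * ((r + 1 : ℕ) : ℚ)) = -4 * (3 * r + 2) := by push_cast; ring
    have e3 : (3 * ((0 + 1 + 1 : ℕ) : ℚ) + 1 - 12 * ((r + 1 : ℕ) : ℚ)) = -(12 * r + 5) := by push_cast; ring
    have e4 : (12 * ((0 : ℕ) : ℚ) + 1 - 12 * ((r + 1 : ℕ) : ℚ)) = -(12 * r + 11) := by push_cast; ring
    rw [e1, e2, e3, e4]
    push_cast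
    generalize ha : 12 * (r : ℚ) + 11 = x1 at *
    generalize hb : 3 * (r : ℚ) + 2 = x2 at *
    generalize hc : 12 * (r : ℚ) + 5 = x3 at *
    generalize hd : 6 * (r : ℚ) + 1 = x4 at *
    field_simp
    rw [← hb, ← hd]
    ring
  | succ k ih =>
    rw [show k + 1 + 3 = (k + 3) + 1 by ring, step1 (r + 1) (k + 3), ih, step1 r k]
    unfold cq
    have a3 : (12 * (r : ℚ) + 5) ≠ 0 := by positivity
    have a4 : (6 * (r : ℚ) + 1) ≠ 0 := by positivity
    have h3 : (3 * (k : ℚ) + 1 - 12 * r) ≠ 0 := by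
      have := ne3 r k
      push_cast at this
      exact this
    have h4 : (3 * (k : ℚ) - 2 - 12 * r) ≠ 0 := by
      have := ne3 r (k - 1)
      push_cast at this
      intro h
      apply this
      linear_combination h
    have e1 : (3 * ((k + 3 : ℕ) : ℚ) + 1 - 12 * ((r + 1 : ℕ) : ℚ)) = 3 * k - 2 - 12 * r := by
      push_cast; ring
    have e2 : (12 * ((k + 3 : ℕ) : ℚ) + 1 - 12 * ((r + 1 : ℕ) : ℚ)) = 12 * k + 25 - 12 * r := by
      push_cast; ring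
    have e3 : (3 * ((r + 1 : ℕ) : ℚ) - ((k + 3 : ℕ) : ℚ)) = 3 * r - k := by push_cast; ring
    have e4 : (12 * (((k + 1 : ℕ) : ℚ)) + 1 - 12 * r) = 12 * k + 13 - 12 * r := by push_cast; ring
    have e5 : (12 * (((k + 1 : ℕ) : ℚ)) + 13 - 12 * r) = 12 * k + 25 - 12 * r := by push_cast; ring
    have e6 : (12 * (r : ℚ) + 2 - 3 * ((k + 1 : ℕ) : ℚ)) = -(3 * k + 1 - 12 * r) := by push_cast; ring
    have e7 : (12 * (r : ℚ) + 2 - 3 * k) = -(3 * k - 2 - 12 * r) := by ring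
    have e8 : (((k + 3 : ℕ) : ℚ) + 1) = k + 4 := by push_cast; ring
    have e9 : (((k + 1 : ℕ) : ℚ) + 1) = k + 2 := by push_cast; ring
    have e10 : (((k + 1 : ℕ) : ℚ) + 2) = k + 3 := by push_cast; ring
    have e11 : (((k + 1 : ℕ) : ℚ) + 3) = k + 4 := by push_cast; ring
    rw [e1, e2, e3, e4, e5, e6, e7, e8, e9, e10, e11]
    have h5 : ((k : ℚ) + 1) ≠ 0 := by positivity
    have h6 : ((k : ℚ) + 2) ≠ 0 := by positivity
    have h7 : ((k : ℚ) + 3) ≠ 0 := by positivity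
    have h8 : ((k : ℚ) + 4) ≠ 0 := by positivity
    generalize FX r k = F
    generalize 3 * (k : ℚ) + 1 - 12 * r = x1 at *
    generalize 3 * (k : ℚ) - 2 - 12 * r = x2 at *
    generalize 12 * (k : ℚ) + 25 - 12 * r = x3 at *
    generalize 12 * (k : ℚ) + 13 - 12 * r = x4 at *
    generalize 12 * (k : ℚ) + 1 - 12 * r = x5 at *
    generalize 3 * (r : ℚ) - k = x6 at *
    generalize (k : ℚ) + 1 = x7 at *
    generalize (k : ℚ) + 2 = x8 at *
    generalize (k : ℚ) + 3 = x9 at *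
    generalize (k : ℚ) + 4 = x10 at *
    generalize 12 * (r : ℚ) + 5 = x11 at *
    generalize 6 * (r : ℚ) + 1 = x12 at *
    field_simp

/-- the certificate -/
def ct (r k : ℚ) : ℚ := -(12 * r + 11) * (3 * r + 1) * (9 * k - 12 * r - 5) * (12 * r + 2 - 3 * k) /
  ((k + 1) * (k + 2))

theorem stepQ (r k F d : ℚ) (hd : d = 3 * k + 1 - 12 * r) (h0 : d ≠ 0) (h1 : 12 * r + 5 ≠ 0)
    (h2 : 6 * r + 1 ≠ 0) (h3 : k + 1 ≠ 0) (h4 : k + 2 ≠ 0) (h5 : k + 3 ≠ 0) :
    2 * (6 * r + 1) * (12 * r + 5) * ((3 * (12 * k + 1 - 12 * r) * (12 * k + 13 - 12 * r) *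
      (12 * r + 2 - 3 * k) * (3 * r + 1) * (r + 1) /
      ((12 * r + 5) * (6 * r + 1) * (k + 1) * (k + 2) * (k + 3))) * F) -
    81 * (3 * r + 1) * (4 * r + 1) * F =
    -(12 * r + 11) * (3 * r + 1) * (9 * (k + 1) - 12 * r - 5) * (-d) / ((k + 2) * (k + 3)) *
      (F * (2 * (12 * k + 1 - 12 * r) * (3 * r - k) / (d * (k + 1)))) -
    -(12 * r + 11) * (3 * r + 1) * (9 * k - 12 * r - 5) * (12 * r + 2 - 3 * k) /
      ((k + 1) * (k + 2)) * F := by
  have e1 : 2 * (6 * r + 1) * (12 * r + 5) * ((3 * (12 * k + 1 - 12 * r) * (12 * k + 13 - 12 * r) *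
      (12 * r + 2 - 3 * k) * (3 * r + 1) * (r + 1) /
      ((12 * r + 5) * (6 * r + 1) * (k + 1) * (k + 2) * (k + 3))) * F) =
      (6 * (12 * k + 1 - 12 * r) * (12 * k + 13 - 12 * r) *
      (12 * r + 2 - 3 * k) * (3 * r + 1) * (r + 1)) * F / ((k + 1) * (k + 2) * (k + 3)) := by
    clear hd
    generalize 12 * r + 5 = y at *
    generalize 6 * r + 1 = z at *
    field_simp
    ring
  have e2 : -(12 * r + 11) * (3 * r + 1) * (9 * (k + 1) - 12 * r - 5) * (-d) / ((k + 2) * (k + 3)) *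
      (F * (2 * (12 * k + 1 - 12 * r) * (3 * r - k) / (d * (k + 1)))) =
      (12 * r + 11) * (3 * r + 1) * (9 * (k + 1) - 12 * r - 5) *
      (2 * (12 * k + 1 - 12 * r) * (3 * r - k)) * F / ((k + 1) * (k + 2) * (k + 3)) := by
    field_simp
  have e3 : -(12 * r + 11) * (3 * r + 1) * (9 * k - 12 * r - 5) * (12 * r + 2 - 3 * k) /
      ((k + 1) * (k + 2)) * F = -(12 * r + 11) * (3 * r + 1) * (9 * k - 12 * r - 5) *
      (12 * r + 2 - 3 * k) * (k + 3) * F / ((k + 1) * (k + 2) * (k + 3)) := by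
    field_simp
  have e4 : 81 * (3 * r + 1) * (4 * r + 1) * F = 81 * (3 * r + 1) * (4 * r + 1) * F *
      ((k + 1) * (k + 2) * (k + 3)) / ((k + 1) * (k + 2) * (k + 3)) := by
    field_simp
  rw [e1, e2, e3, e4, ← sub_div, ← sub_div]
  congr 1
  ring

theorem step (r k : ℕ) : 2 * (6 * (r : ℚ) + 1) * (12 * r + 5) * FX (r + 1) (k + 3) -
    81 * (3 * r + 1) * (4 * r + 1) * FX r k = ct r (k + 1) * FX r (k + 1) - ct r k * FX r k := by
  have h3 := ne3 r k
  push_cast at h3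
  rw [step2, step1 r k]
  have h := stepQ r k (FX r k) _ rfl h3 (by positivity) (by positivity) (by positivity)
    (by positivity) (by positivity)
  unfold ct cq
  rw [show ((k : ℚ) + 1 + 1) = k + 2 by ring, show ((k : ℚ) + 1 + 2) = k + 3 by ring,
    show (12 * (r : ℚ) + 2 - 3 * (k + 1)) = -(3 * k + 1 - 12 * r) by ring]
  exact h

theorem tele (r K : ℕ) :
    ∑ k ∈ range K, (2 * (6 * (r : ℚ) + 1) * (12 * r + 5) * FX (r + 1) (k + 3) -
    81 * (3 * r + 1) * (4 * r + 1) * FX r k) = ct r K * FX r K - ct r 0 := by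
  induction K with
  | zero => simp [FX_zero]
  | succ K ih =>
    rw [sum_range_succ, ih, step]
    push_cast
    ring

theorem first (r : ℕ) : 2 * (6 * (r : ℚ) + 1) * (12 * r + 5) *
    (FX (r + 1) 0 + FX (r + 1) 1 + FX (r + 1) 2) = ct r 0 := by
  have a1 : (12 * (r : ℚ) + 11) ≠ 0 := by positivity
  have a2 : (3 * (r : ℚ) + 2) ≠ 0 := by positivity
  have f1 : FX (r + 1) 1 = 6 * (r + 1) := by
    rw [show (1 : ℕ) = 0 + 1 by rfl, step1, FX_zero]
    push_cast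
    rw [show (12 * (0 : ℚ) + 1 - 12 * (r + 1)) = -(12 * r + 11) by ring,
      show (3 * (0 : ℚ) + 1 - 12 * (r + 1)) = -(12 * r + 11) by ring]
    field_simp
    ring
  have f2 : FX (r + 1) 2 = 3 / 2 * (r + 1) * (12 * r - 1) := by
    rw [show (2 : ℕ) = 1 + 1 by rfl, step1, f1]
    push_cast
    rw [show (12 * (1 : ℚ) + 1 - 12 * (r + 1)) = -(12 * r - 1) by ring,
      show (3 * (1 : ℚ) + 1 - 12 * (r + 1)) = -4 * (3 * r + 2) by ring,
      show (3 * ((r : ℚ) + 1) - 1) = 3 * r + 2 by ring]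
    field_simp
    ring
  rw [FX_zero, f1, f2]
  unfold ct
  field_simp
  ring

theorem S_succ (r : ℕ) : 2 * (6 * (r : ℚ) + 1) * (12 * r + 5) *
    ∑ k ∈ range (3 * (r + 1) + 1), FX (r + 1) k =
    81 * (3 * r + 1) * (4 * r + 1) * ∑ k ∈ range (3 * r + 1), FX r k := by
  have h := tele r (3 * r + 1)
  rw [sum_sub_distrib, ← mul_sum, ← mul_sum, top] at h
  rw [show 3 * (r + 1) + 1 = (3 * r + 1) + 1 + 1 + 1 by ring, sum_range_succ', sum_range_succ',
    sum_range_succ']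
  have f := first r
  simp only [zero_add]
  linear_combination h + f

end CX

open CX

theorem closedX (r : ℕ) : ∑ k ∈ range (3 * r + 1), FX r k =
    ∏ i ∈ range r, (27 / 4 * ((1 / 3 + i) * (1 / 4 + i) / ((1 / 6 + i) * (5 / 12 + i))) : ℚ) := by
  induction r with
  | zero => simp [FX]
  | succ r ih =>
    have h := S_succ r
    rw [ih] at h
    have h1 : (2 * (6 * (r : ℚ) + 1) * (12 * r + 5)) ≠ 0 := by positivity
    apply mul_left_cancel₀ h1
    rw [h, prod_range_succ]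
    have h2 : ((1 : ℚ) / 6 + r) ≠ 0 := by positivity
    have h3 : ((5 : ℚ) / 12 + r) ≠ 0 := by positivity
    generalize (∏ i ∈ range r, (27 / 4 * ((1 / 3 + i) * (1 / 4 + i) / ((1 / 6 + i) * (5 / 12 + i))) : ℚ)) = P
    field_simp
    ring

end Pool.Agent.T6.H7.SB
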