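import Mathlib
import Pool.Agent.T6.H7.SB.QC
import Pool.Agent.T6.H7.SB.CU
import Pool.Agent.T6.H7.SB.CX

set_option autoImplicit false

/-!
The family through `∑ C(-1/4,k) C(-1/2,k) (-8)^k`.
-/

namespace Pool.Agent.T6.H7.SB

open Finset Pool.Agent.R439.PL Pool.Agent.R439.PL.S4 Pool.Agent.R488.Tri Pool.Agent.R488.Cub
  Pool.Agent.R488.Nin Pool.Agent.R488.Sq

variable {p j M : ℕ} [hp : Fact p.Prime]

def hs (s : ℚ) (k : ℕ) : ℚ := (-8) ^ k * ∏ i ∈ range k,
  ((1 / 4 + i + s) * (1 / 2 + i + 3 * s) * ((1 + i + 4 * s) * (1 + i))⁻¹)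

def HS (p : ℕ) (s : ℚ) : ℚ := ∑ k ∈ range p, hs s k

theorem lin_HS (hpj : p = 6 * j + 1) : Lin p (HS p) := by
  have u2 := U2 hpj
  have u3 := U3 hpj
  have u4 := U4 hpj
  have m12 : (1 / 2 : ℚ) ∈ Zp p := by rw [one_div]; exact u2.2.2
  have m14 : (1 / 4 : ℚ) ∈ Zp p := by rw [one_div]; exact u4.2.2
  refine Lin.sum fun k hk => ?_
  have hk' := mem_range.1 hk
  have m8 : (-8 : ℚ) ∈ Zp p := by exact_mod_cast int_mem (p := p) (-8)
  have h1 : Lin p (fun u => (-8 : ℚ) ^ k + 0 * u) := Lin.affine (pow_mem m8 _) (zero_mem _)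
  have h2 : Lin p (fun u => ∏ i ∈ range k,
      (((1 / 4 + i : ℚ) + 1 * u) * ((1 / 2 + i : ℚ) + 3 * u) *
        (((1 + i : ℚ) + 4 * u) * ((1 + i : ℚ) + 0 * u))⁻¹)) := by
    refine Lin.prod fun i hi => ?_
    have hi' := mem_range.1 hi
    have a1 : (1 / 4 + i : ℚ) ∈ Zp p := add_mem m14 (nat_mem i)
    have a2 : (1 / 2 + i : ℚ) ∈ Zp p := add_mem m12 (nat_mem i)
    have u1 := U_nat (p := p) (k := 1 + i) (by omega) (by omega)
    push_cast at u1
    refine ((Lin.affine a1 (one_mem _)).mul (Lin.affine a2 u3.2.1)).mul (Lin.inv ((Lin.affine u1.2.1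
      u4.2.1).mul (Lin.affine u1.2.1 (zero_mem _))) ?_)
    simpa using u1.mul u1
  have h3 := h1.mul h2
  have e : (fun u => ((-8 : ℚ) ^ k + 0 * u) * ∏ i ∈ range k,
      (((1 / 4 + i : ℚ) + 1 * u) * ((1 / 2 + i : ℚ) + 3 * u) *
        (((1 + i : ℚ) + 4 * u) * ((1 + i : ℚ) + 0 * u))⁻¹)) = fun u => hs u k := by
    funext u
    rw [hs, zero_mul, add_zero]
    congr 1
    refine prod_congr rfl fun i _ => ?_
    rw [add_zero, one_mul]
  rwa [e] at h3

theorem FU_big {n k : ℕ} (h : n < k) : FU n k = 0 := by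
  rw [FU]
  refine prod_eq_zero (i := n) (mem_range.2 h) ?_
  rw [sub_self]; simp

theorem FX_big {r k : ℕ} (h : 3 * r < k) : FX r k = 0 := by
  rw [FX]
  refine prod_eq_zero (i := 3 * r) (mem_range.2 h) ?_
  have : (((3 * r : ℕ) : ℚ) - 3 * r) = 0 := by push_cast; ring
  rw [this]; simp

theorem hs_U {n : ℕ} {s : ℚ} (h : 4 * s = -(4 * n + 1)) (k : ℕ) : hs s k = FU n k := by
  have e0 : (-8 : ℚ) ^ k = ∏ i ∈ range k, (-8 : ℚ) := by rw [prod_const, card_range]
  rw [hs, FU, e0, ← prod_mul_distrib]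
  refine prod_congr rfl fun i _ => ?_
  have e1 : (1 / 4 + i + s : ℚ) = i - n := by linear_combination (1 / 4) * h
  have e2 : (1 / 2 + i + 3 * s : ℚ) = i - 3 * n - 1 / 4 := by linear_combination (3 / 4) * h
  have e3 : (1 + i + 4 * s : ℚ) = i - 4 * n := by linear_combination h
  rw [e1, e2, e3, div_eq_mul_inv]
  ring

theorem hs_X {r : ℕ} {s : ℚ} (h : 6 * s = -(6 * r + 1)) (k : ℕ) : hs s k = FX r k := by
  have e0 : (-8 : ℚ) ^ k = ∏ i ∈ range k, (-8 : ℚ) := by rw [prod_const, card_range]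
  rw [hs, FX, e0, ← prod_mul_distrib]
  refine prod_congr rfl fun i _ => ?_
  have e1 : (1 / 4 + i + s : ℚ) = i + 1 / 12 - r := by linear_combination (1 / 6) * h
  have e2 : (1 / 2 + i + 3 * s : ℚ) = i - 3 * r := by linear_combination (1 / 2) * h
  have e3 : (1 + i + 4 * s : ℚ) = i + 1 / 3 - 4 * r := by linear_combination (2 / 3) * h
  rw [e1, e2, e3, div_eq_mul_inv]
  ring

theorem HS_U {n : ℕ} {s : ℚ} (h : 4 * s = -(4 * n + 1)) (hn : n < p) : HS p s =
    (27 / 4) ^ n * ((∏ i ∈ range n, (1 / 3 + i : ℚ)) * (∏ i ∈ range n, (5 / 12 + i : ℚ)) /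
      ((∏ i ∈ range n, (1 / 2 + i : ℚ)) * ∏ i ∈ range n, (1 / 4 + i : ℚ))) := by
  have h1 : HS p s = ∑ k ∈ range (n + 1), FU n k := by
    rw [HS, sum_congr rfl fun k _ => hs_U h k]
    symm
    exact sum_subset (range_subset_range.2 (by omega)) fun k _ hk =>
      FU_big (by have := mt mem_range.2 hk; omega)
  rw [h1, closedU, prod_mul_distrib, prod_const, card_range, prod_div_distrib, prod_mul_distrib,
    prod_mul_distrib]

theorem HS_X {r : ℕ} {s : ℚ} (h : 6 * s = -(6 * r + 1)) (hr : 3 * r < p) : HS p s =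
    (27 / 4) ^ r * ((∏ i ∈ range r, (1 / 3 + i : ℚ)) * (∏ i ∈ range r, (1 / 4 + i : ℚ)) /
      ((∏ i ∈ range r, (1 / 6 + i : ℚ)) * ∏ i ∈ range r, (5 / 12 + i : ℚ))) := by
  have h1 : HS p s = ∑ k ∈ range (3 * r + 1), FX r k := by
    rw [HS, sum_congr rfl fun k _ => hs_X h k]
    symm
    exact sum_subset (range_subset_range.2 (by omega)) fun k _ hk =>
      FX_big (by have := mt mem_range.2 hk; omega)
  rw [h1, closedX, prod_mul_distrib, prod_const, card_range, prod_div_distrib, prod_mul_distrib,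
    prod_mul_distrib]

theorem choose_fac (j : ℕ) : ((2 * j).choose j : ℚ) =
    ((2 * j).factorial : ℚ) / (j.factorial * j.factorial) := by
  have f := Nat.choose_mul_factorial_mul_factorial (show j ≤ 2 * j by omega)
  rw [show 2 * j - j = j by omega] at f
  have g : ((2 * j).choose j : ℚ) * j.factorial * j.factorial = ((2 * j).factorial : ℚ) := by
    exact_mod_cast f
  have n1 : (j.factorial : ℚ) ≠ 0 := by exact_mod_cast Nat.factorial_ne_zero _
  rw [eq_div_iff (mul_ne_zero n1 n1), ← g]; ring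

end Pool.Agent.T6.H7.SB
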