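import Mathlib
import Pool.Agent.T6.H7.SB.S2D

set_option autoImplicit false

/-!
`∑ C(-1/4,k) C(-1/2,k) (-8)^k` modulo `p^2`, `p = 12M+1`.
-/

namespace Pool.Agent.T6.H7.SB

open Finset Pool.Agent.R439.PL Pool.Agent.R439.PL.S4 Pool.Agent.R488.Tri Pool.Agent.R488.Cub
  Pool.Agent.R488.Nin Pool.Agent.R488.Sq

variable {p j M : ℕ} [hp : Fact p.Prime]

theorem S2_one (hpM : p = 12 * M + 1) (hjM : j = 2 * M) {a b : ℚ}
    (ha : a = 64 ^ j - 1) (hb : b = (-27) ^ j - 1) : EQ p 2 (HS p 0)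
    ((-1) ^ M * (27 ^ M * ((1 + -(1 / 2) * b) *
      (((4 * j).choose (2 * j) : ℚ) * ((16 ^ j)⁻¹ * (1 + 2 / 3 * a)))))) := by
  have hpj : p = 6 * j + 1 := by omega
  obtain ⟨a', b', C4, C3, C2, hC4, hC3, hC2, ha', hb', Ia, Ib, uC4, mC3, mC2, E3, E2, E1, e1, e6⟩ :=
    facts harm hpj
  rw [← ha] at ha'
  rw [← hb] at hb'
  have ha2 : a = a' := ha'.symm
  have hb2 : b = b' := hb'.symm
  clear ha' hb'
  subst ha2 hb2
  have hj := j_pos hpj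
  have hpq : (p : ℚ) = 12 * M + 1 := by exact_mod_cast hpM
  have u2 := U2 hpj
  have u3 := U3 hpj
  have u4 := U4 hpj
  have u12 : U p (12 : ℚ) := by
    have : (12 : ℚ) = 3 * 4 := by norm_num
    rw [this]; exact u3.mul u4
  have u6 := U6 hpj
  have m12 : (1 / 2 : ℚ) ∈ Zp p := by rw [one_div]; exact u2.2.2
  have m13 : (1 / 3 : ℚ) ∈ Zp p := by rw [one_div]; exact u3.2.2
  have m14 : (1 / 4 : ℚ) ∈ Zp p := by rw [one_div]; exact u4.2.2
  have m16 : (1 / 6 : ℚ) ∈ Zp p := by rw [one_div]; exact u6.2.2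
  have m512 : (5 / 12 : ℚ) ∈ Zp p := by
    rw [div_eq_mul_inv]; exact mul_mem (by exact_mod_cast nat_mem (p := p) 5) u12.2.2
  have m13' : (-(1 / 3) : ℚ) ∈ Zp p := neg_mem m13
  -- the two points
  have hd4 : I p 1 (-(p : ℚ) / 4) := by rw [div_eq_mul_inv]; exact (I_p (p := p)).neg.mulR u4.2.2
  have hd6 : I p 1 (-(p : ℚ) / 6) := by rw [div_eq_mul_inv]; exact (I_p (p := p)).neg.mulR u6.2.2
  have h0 := Lin.two (lin_HS hpj) hd6 hd4 u3.2.1 (neg_mem u2.2.1) (by norm_num) (by ring)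
  have X0 := HS_X (p := p) (r := j) (s := -(p : ℚ) / 6) (by rw [hpq, hjM]; push_cast; ring) (by omega)
  have U0 := HS_U (p := p) (n := 3 * M) (s := -(p : ℚ) / 4) (by rw [hpq]; push_cast; ring) (by omega)
  -- symbols
  obtain ⟨f1, hf1⟩ : ∃ f1 : ℚ, f1 = (M.factorial : ℚ) := ⟨_, rfl⟩
  obtain ⟨f2, hf2⟩ : ∃ f2 : ℚ, f2 = ((2 * M).factorial : ℚ) := ⟨_, rfl⟩
  obtain ⟨f3, hf3⟩ : ∃ f3 : ℚ, f3 = ((3 * M).factorial : ℚ) := ⟨_, rfl⟩
  obtain ⟨f4, hf4⟩ : ∃ f4 : ℚ, f4 = ((4 * M).factorial : ℚ) := ⟨_, rfl⟩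
  obtain ⟨f5, hf5⟩ : ∃ f5 : ℚ, f5 = ((5 * M).factorial : ℚ) := ⟨_, rfl⟩
  obtain ⟨f6, hf6⟩ : ∃ f6 : ℚ, f6 = ((6 * M).factorial : ℚ) := ⟨_, rfl⟩
  obtain ⟨h1, hh1⟩ : ∃ h1 : ℚ, h1 = p * H M := ⟨_, rfl⟩
  obtain ⟨h2, hh2⟩ : ∃ h2 : ℚ, h2 = p * H (2 * M) := ⟨_, rfl⟩
  obtain ⟨h3, hh3⟩ : ∃ h3 : ℚ, h3 = p * H (3 * M) := ⟨_, rfl⟩
  obtain ⟨h4, hh4⟩ : ∃ h4 : ℚ, h4 = p * H (4 * M) := ⟨_, rfl⟩
  obtain ⟨h5, hh5⟩ : ∃ h5 : ℚ, h5 = p * H (5 * M) := ⟨_, rfl⟩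
  obtain ⟨h6, hh6⟩ : ∃ h6 : ℚ, h6 = p * H (6 * M) := ⟨_, rfl⟩
  have hH0 : H 0 = 0 := by simp [H]
  have uf1 : U p f1 := by rw [hf1]; exact U_fac (by omega)
  have uf2 : U p f2 := by rw [hf2]; exact U_fac (by omega)
  have uf3 : U p f3 := by rw [hf3]; exact U_fac (by omega)
  have uf4 : U p f4 := by rw [hf4]; exact U_fac (by omega)
  have uf5 : U p f5 := by rw [hf5]; exact U_fac (by omega)
  have uf6 : U p f6 := by rw [hf6]; exact U_fac (by omega)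
  -- harmonic facts
  rw [hjM, show 3 * (2 * M) = 6 * M by ring, ← hh6] at E3
  rw [hjM, show 2 * (2 * M) = 4 * M by ring, ← hh4] at E2
  rw [hjM, ← hh2] at E1
  have r6 : I p 2 (h6 + 2 * a) := by
    have e : h6 + 2 * a = h6 - -2 * a := by ring
    rw [e]; exact E3.2.2
  have r4 : I p 2 (h4 + 3 * b) := by
    have e : h4 + 3 * b = h4 - -3 * b := by ring
    rw [e]; exact E2.2.2
  have r2 : I p 2 (h2 + 2 * a + 3 * b) := by
    have e : h2 + 2 * a + 3 * b = h2 - (-2 * a - 3 * b) := by ring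
    rw [e]; exact E1.2.2
  have rD : I p 2 (2 * h2 - h1 + (h6 - h5)) := by
    have s := descS (p := p) (a := 6 * M) (b := M) (by omega) (by omega) m12 (x := 1 / 2)
      (by rw [hpq]; push_cast; ring)
    rw [show 6 * M - M = 5 * M by omega, ← hh6, ← hh5] at s
    have e := H_dup M
    have e' : 2 * h2 - h1 + (h6 - h5) = p * ∑ i ∈ range M, (1 / 2 + i : ℚ)⁻¹ + (h6 - h5) := by
      rw [hh2, hh1]; linear_combination (p : ℚ) * e
    rw [e']; exact s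
  have rT : I p 2 (3 * h3 - h1 + (h4 - h3) - (h5 - h4)) := by
    have s := descS (p := p) (a := 4 * M) (b := M) (by omega) (by omega) m13 (x := 1 / 3)
      (by rw [hpq]; push_cast; ring)
    rw [show 4 * M - M = 3 * M by omega, ← hh4, ← hh3] at s
    have t := ascS (p := p) (a := 4 * M) (b := M) (by omega) m13' (x := 2 / 3)
      (by rw [hpq]; push_cast; ring)
    rw [show 4 * M + M = 5 * M by omega, ← hh4, ← hh5] at t
    have e := H_trip M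
    have e' : 3 * h3 - h1 + (h4 - h3) - (h5 - h4) = (p * ∑ i ∈ range M, (1 / 3 + i : ℚ)⁻¹ + (h4 - h3)) +
        (p * ∑ i ∈ range M, (2 / 3 + i : ℚ)⁻¹ - (h5 - h4)) := by
      rw [hh3, hh1]; linear_combination (p : ℚ) * e
    rw [e']; exact s.add t
  have uM : ∀ n : ℕ, U p ((-1 : ℚ) ^ n) := fun n => by
    rcases neg_one_pow_eq_or ℚ n with h | h <;> rw [h]
    · exact U.one
    · exact U_neg U.one
  have u27 : U p (27 : ℚ) := by
    have : (27 : ℚ) = 3 * 3 * 3 := by norm_num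
    rw [this]; exact (u3.mul u3).mul u3
  have u274 : U p (27 / 4 : ℚ) := u27.div u4
  obtain ⟨σ, hσ⟩ : ∃ σ : ℚ, σ = (-1) ^ M := ⟨_, rfl⟩
  have hσ2 : σ * σ = 1 := by rw [hσ, ← mul_pow]; norm_num
  have hσ0 : σ ≠ 0 := by intro h; rw [h] at hσ2; norm_num at hσ2
  have uσ : U p σ := by rw [hσ]; exact uM M
  -- duplication and triplication
  have qD : Q p (f2 * f5 / (f1 * f6)) ((-4) ^ M) (-(1 / 2) * (h6 - h5)) := by
    have s := desc (p := p) (a := 6 * M) (b := M) (by omega) (by omega) m12 (x := 1 / 2)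
      (by rw [hpq]; push_cast; ring)
    rw [show 6 * M - M = 5 * M by omega, ← hh6, ← hh5, ← hf6, ← hf5, ← hσ] at s
    have s2 := (Q.refl ((u4.pow M).mul uf1)).mul s
    have e := fac_dup M
    rw [← hf2, ← hf1] at e
    rw [← e] at s2
    have s3 := s2.mul (Q.refl (uf5.div (uf1.mul uf6)))
    have e1 : f2 * (f5 / (f1 * f6)) = f2 * f5 / (f1 * f6) := by ring
    have e2 : 4 ^ M * f1 * (σ * (f6 / f5)) * (f5 / (f1 * f6)) = (-4) ^ M := by
      have n1 := uf1.1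
      have n2 := uf5.1
      have n3 := uf6.1
      have e3 : (-4 : ℚ) ^ M = σ * 4 ^ M := by rw [hσ, ← mul_pow]; norm_num
      rw [e3]
      field_simp
    rw [e1, e2] at s3
    have e4 : 0 + -(1 / 2) * (h6 - h5) + 0 = -(1 / 2) * (h6 - h5) := by ring
    rwa [e4] at s3
  have qT : Q p (f3 * f3 / (f1 * f5)) ((-27) ^ M) (-(1 / 3) * (h5 - h3)) := by
    have s := desc (p := p) (a := 4 * M) (b := M) (by omega) (by omega) m13 (x := 1 / 3)
      (by rw [hpq]; push_cast; ring)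
    rw [show 4 * M - M = 3 * M by omega, ← hh4, ← hh3, ← hf4, ← hf3, ← hσ] at s
    have t := asc (p := p) (a := 4 * M) (b := M) (by omega) m13' (x := 2 / 3)
      (by rw [hpq]; push_cast; ring)
    rw [show 4 * M + M = 5 * M by omega, ← hh4, ← hh5, ← hf4, ← hf5] at t
    have s2 := (Q.refl ((u27.pow M).mul uf1)).mul (s.mul t)
    have e := fac_trip M
    rw [← hf3, ← hf1] at e
    rw [← e] at s2
    have s3 := s2.mul (Q.refl (uf3.div (uf1.mul uf5)))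
    have e1 : f3 * (f3 / (f1 * f5)) = f3 * f3 / (f1 * f5) := by ring
    have e2 : 27 ^ M * f1 * (σ * (f4 / f3) * (f5 / f4)) * (f3 / (f1 * f5)) = (-27) ^ M := by
      have n1 := uf1.1
      have n2 := uf5.1
      have n3 := uf3.1
      have n4 := uf4.1
      have e3 : (-27 : ℚ) ^ M = σ * 27 ^ M := by rw [hσ, ← mul_pow]; norm_num
      rw [e3]
      field_simp
    rw [e1, e2] at s3
    have e4 : 0 + (-(1 / 3) * (h4 - h3) + -(1 / 3) * (h5 - h4)) + 0 = -(1 / 3) * (h5 - h3) := by ring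
    rwa [e4] at s3
  -- the value at -p/6
  have hone : (-1 : ℚ) ^ (2 * M) = 1 := by rw [pow_mul]; norm_num
  have hC2f : C2 = f4 / (f2 * f2) := by
    rw [hC2, choose_fac, hjM, hf2, hf4, show 2 * (2 * M) = 4 * M by ring]
  have qX : Q p (HS p (-(p : ℚ) / 6)) ((27 / 4) ^ j * (-27) ^ M * C2)
      (-(1 / 3) * (h4 - h2) + -(1 / 4) * (h3 - h1) - (-(1 / 6) * h2 + -(5 / 12) * (h5 - h3)) +
        -(1 / 3) * (h5 - h3)) := by
    have s1 := desc (p := p) (a := 4 * M) (b := 2 * M) (by omega) (by omega) m13 (x := 1 / 3)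
      (by rw [hpq]; push_cast; ring)
    rw [show 4 * M - 2 * M = 2 * M by omega, ← hh4, ← hh2, ← hf4, ← hf2, hone, one_mul] at s1
    have s2 := desc (p := p) (a := 3 * M) (b := 2 * M) (by omega) (by omega) m14 (x := 1 / 4)
      (by rw [hpq]; push_cast; ring)
    rw [show 3 * M - 2 * M = M by omega, ← hh3, ← hh1, ← hf3, ← hf1, hone, one_mul] at s2
    have s3 := desc (p := p) (a := 2 * M) (b := 2 * M) (by omega) (by omega) m16 (x := 1 / 6)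
      (by rw [hpq]; push_cast; ring)
    rw [Nat.sub_self, hH0, ← hh2, ← hf2, hone, one_mul, mul_zero, sub_zero, Nat.factorial_zero,
      Nat.cast_one, div_one] at s3
    have s4 := desc (p := p) (a := 5 * M) (b := 2 * M) (by omega) (by omega) m512 (x := 5 / 12)
      (by rw [hpq]; push_cast; ring)
    rw [show 5 * M - 2 * M = 3 * M by omega, ← hh5, ← hh3, ← hf5, ← hf3, hone, one_mul] at s4
    have t := (Q.refl (u274.pow j)).mul ((s1.mul s2).div (s3.mul s4))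
    rw [hjM] at X0
    rw [hjM, ← X0] at t
    have uA : U p ((27 / 4) ^ (2 * M) * (f4 / (f2 * f2)) : ℚ) :=
      (u274.pow _).mul (uf4.div (uf2.mul uf2))
    have t2 := (Q.refl uA).mul qT
    have e1 : (27 / 4 : ℚ) ^ (2 * M) * (f4 / (f2 * f2)) * (f3 * f3 / (f1 * f5)) =
        (27 / 4) ^ (2 * M) * (f4 / f2 * (f3 / f1) / (f2 * (f5 / f3))) := by
      have n1 := uf1.1
      have n2 := uf5.1
      have n3 := uf3.1
      have n4 := uf2.1
      field_simp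
    rw [e1] at t2
    have t3 := t.trans t2
    have e2 : (27 / 4 : ℚ) ^ (2 * M) * (f4 / (f2 * f2)) * (-27) ^ M = (27 / 4) ^ j * (-27) ^ M * C2 := by
      rw [hC2f, hjM]; ring
    rw [e2] at t3
    have e3 : 0 + (-(1 / 3) * (h4 - h2) + -(1 / 4) * (h3 - h1) - (-(1 / 6) * h2 + -(5 / 12) * (h5 - h3))) +
        (0 + -(1 / 3) * (h5 - h3)) =
      (-(1 / 3) * (h4 - h2) + -(1 / 4) * (h3 - h1) - (-(1 / 6) * h2 + -(5 / 12) * (h5 - h3)) +
        -(1 / 3) * (h5 - h3)) := by ring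
    rwa [e3] at t3
  -- the value at -p/4
  have qU : Q p (HS p (-(p : ℚ) / 4)) ((27 / 4) ^ j * (-27) ^ M * C2)
      (-(1 / 3) * (h4 - h1) + -(5 / 12) * (h5 - h2) - (-(1 / 2) * (h6 - h3) + -(1 / 4) * h3) +
        -(1 / 2) * (h6 - h5)) := by
    have h3M : (-1 : ℚ) ^ (3 * M) = σ := by rw [hσ, pow_mul]; norm_num
    have s1 := desc (p := p) (a := 4 * M) (b := 3 * M) (by omega) (by omega) m13 (x := 1 / 3)
      (by rw [hpq]; push_cast; ring)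
    rw [show 4 * M - 3 * M = M by omega, ← hh4, ← hh1, ← hf4, ← hf1, h3M] at s1
    have s2 := desc (p := p) (a := 5 * M) (b := 3 * M) (by omega) (by omega) m512 (x := 5 / 12)
      (by rw [hpq]; push_cast; ring)
    rw [show 5 * M - 3 * M = 2 * M by omega, ← hh5, ← hh2, ← hf5, ← hf2, h3M] at s2
    have s3 := desc (p := p) (a := 6 * M) (b := 3 * M) (by omega) (by omega) m12 (x := 1 / 2)
      (by rw [hpq]; push_cast; ring)
    rw [show 6 * M - 3 * M = 3 * M by omega, ← hh6, ← hh3, ← hf6, ← hf3, h3M] at s3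
    have s4 := desc (p := p) (a := 3 * M) (b := 3 * M) (by omega) (by omega) m14 (x := 1 / 4)
      (by rw [hpq]; push_cast; ring)
    rw [Nat.sub_self, hH0, ← hh3, ← hf3, h3M, mul_zero, sub_zero, Nat.factorial_zero,
      Nat.cast_one, div_one] at s4
    have t := (Q.refl (u274.pow (3 * M))).mul ((s1.mul s2).div (s3.mul s4))
    rw [← U0] at t
    have uA : U p ((27 / 4) ^ (3 * M) * (f4 / (f2 * f2)) : ℚ) :=
      (u274.pow _).mul (uf4.div (uf2.mul uf2))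
    have t2 := (Q.refl uA).mul qD
    have e1 : (27 / 4 : ℚ) ^ (3 * M) * (f4 / (f2 * f2)) * (f2 * f5 / (f1 * f6)) =
        (27 / 4) ^ (3 * M) * (σ * (f4 / f1) * (σ * (f5 / f2)) / (σ * (f6 / f3) * (σ * f3))) := by
      have n1 := uf1.1
      have n2 := uf6.1
      have n3 := uf3.1
      have n4 := uf2.1
      field_simp
    rw [e1] at t2
    have t3 := t.trans t2
    have e2 : (27 / 4 : ℚ) ^ (3 * M) * (f4 / (f2 * f2)) * (-4) ^ M = (27 / 4) ^ j * (-27) ^ M * C2 := by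
      have : (27 / 4 : ℚ) ^ (3 * M) * (-4) ^ M = (27 / 4) ^ (2 * M) * (-27) ^ M := by
        rw [pow_mul, pow_mul, ← mul_pow, ← mul_pow]; norm_num
      rw [hC2f, hjM, ← this]; ring
    rw [e2] at t3
    have e3 : 0 + (-(1 / 3) * (h4 - h1) + -(5 / 12) * (h5 - h2) - (-(1 / 2) * (h6 - h3) + -(1 / 4) * h3)) +
        (0 + -(1 / 2) * (h6 - h5)) =
      (-(1 / 3) * (h4 - h1) + -(5 / 12) * (h5 - h2) - (-(1 / 2) * (h6 - h3) + -(1 / 4) * h3) +
        -(1 / 2) * (h6 - h5)) := by ring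
    rwa [e3] at t3
  obtain ⟨A, hA⟩ : ∃ A : ℚ, A = (27 / 4) ^ j * (-27) ^ M * C2 := ⟨_, rfl⟩
  rw [← hA] at qX qU
  have uA : U p A := qX.2.1
  -- combine
  have g1 := h0.trans (((EQ.refl (k := 2) u3.2.1).mul qX.2.2.2).add
    ((EQ.refl (k := 2) (neg_mem u2.2.1)).mul qU.2.2.2))
  obtain ⟨L, hL⟩ : ∃ L : ℚ, L = 3 * (-(1 / 3) * (h4 - h2) + -(1 / 4) * (h3 - h1) -
    (-(1 / 6) * h2 + -(5 / 12) * (h5 - h3)) + -(1 / 3) * (h5 - h3)) -
    2 * (-(1 / 3) * (h4 - h1) + -(5 / 12) * (h5 - h2) - (-(1 / 2) * (h6 - h3) + -(1 / 4) * h3) +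
        -(1 / 2) * (h6 - h5)) := ⟨_, rfl⟩
  have IL : I p 2 (L - (-(1 / 3) * a + -(3 / 2) * b)) := by
    have m1 : (-(1 / 4) : ℚ) ∈ Zp p := neg_mem m14
    have m2 : (-(1 / 6) : ℚ) ∈ Zp p := neg_mem m16
    have e : L - (-(1 / 3) * a + -(3 / 2) * b) = -(1 / 4) * (3 * h3 - h1 + (h4 - h3) - (h5 - h4)) +
        1 / 6 * (2 * h2 - h1 + (h6 - h5)) + 1 / 3 * (h2 + 2 * a + 3 * b) + -(1 / 6) * (h6 + 2 * a) +
        1 / 6 * (h4 + 3 * b) := by rw [hL]; ring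
    rw [e]
    exact ((((rT.mulL m1).add (rD.mulL m16)).add (r2.mulL m13)).add (r6.mulL m2)).add (r4.mulL m16)
  have Iab : I p 1 (-(1 / 3) * a + -(3 / 2) * b) :=
    (Ia.mulL m13').add (Ib.mulL (by
      have : (-(3 / 2) : ℚ) = -(3 * 2⁻¹) := by ring
      rw [this]; exact neg_mem (mul_mem u3.2.1 u2.2.2)))
  have g2 : EQ p 2 (HS p 0) (A * (1 + (-(1 / 3) * a + -(3 / 2) * b))) := by
    refine g1.trans ⟨g1.2.1, mul_mem uA.2.1 (U_small Iab).2.1, ?_⟩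
    have e : 3 * (A * (1 + (-(1 / 3) * (h4 - h2) + -(1 / 4) * (h3 - h1) -
      (-(1 / 6) * h2 + -(5 / 12) * (h5 - h3)) + -(1 / 3) * (h5 - h3)))) +
      -2 * (A * (1 + (-(1 / 3) * (h4 - h1) + -(5 / 12) * (h5 - h2) -
        (-(1 / 2) * (h6 - h3) + -(1 / 4) * h3) + -(1 / 2) * (h6 - h5)))) -
      A * (1 + (-(1 / 3) * a + -(3 / 2) * b)) = A * (L - (-(1 / 3) * a + -(3 / 2) * b)) := by
      rw [hL]; ring
    rw [e]
    exact IL.mulL uA.2.1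
  -- in terms of C4
  have hk16 : (-4 : ℚ) ^ j = 16 ^ M := by rw [hjM, pow_mul]; norm_num
  have u16M : U p ((16 : ℚ) ^ M) := by
    have : (16 : ℚ) = 4 * 4 := by norm_num
    rw [this]; exact (u4.mul u4).pow M
  have g3 : EQ p 2 C2 ((16 ^ M)⁻¹ * (C4 * (1 + a))) := by
    have t := (EQ.refl (k := 2) u16M.2.2).mul e6.symm
    rw [hk16] at t
    have e : ((16 : ℚ) ^ M)⁻¹ * (16 ^ M * C2) = C2 := by
      rw [← mul_assoc, inv_mul_cancel₀ u16M.1, one_mul]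
    rwa [e] at t
  have eb : 1 + b = (27 ^ M) ^ 2 := by
    have k : (-27 : ℚ) ^ (2 * M) = (27 ^ M) ^ 2 := by
      rw [pow_mul, ← pow_mul (27 : ℚ) M 2, mul_comm M 2, pow_mul (27 : ℚ) 2 M]; norm_num
    rw [hb, hjM, k]; ring
  have hA2 : A = σ * 27 ^ M * (16 ^ M)⁻¹ * (1 + b) * C2 := by
    have k1 : (27 / 4 : ℚ) ^ (2 * M) = (27 ^ M) ^ 2 * (16 ^ M)⁻¹ := by
      rw [div_pow, pow_mul (4 : ℚ) 2 M, show ((4 : ℚ) ^ 2) = 16 by norm_num, mul_comm 2 M, pow_mul,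
        div_eq_mul_inv]
    have k2 : (-27 : ℚ) ^ M = σ * 27 ^ M := by rw [hσ, ← mul_pow]; norm_num
    rw [hA, hjM, k1, k2, eb]; ring
  have mP : σ * 27 ^ M * (16 ^ M)⁻¹ ∈ Zp p := mul_mem (mul_mem uσ.2.1 (u27.pow M).2.1) u16M.2.2
  have g4 := (((EQ.refl (k := 2) mP).mul (EQ.refl (k := 2) (U_small Ib).2.1)).mul g3).mul
    (EQ.refl (k := 2) (U_small Iab).2.1)
  rw [← hA2] at g4
  have g5 := g2.trans g4
  have c1 := mul_small Ia Iab
  have c1' : 1 + a + (-(1 / 3) * a + -(3 / 2) * b) = 1 + (2 / 3 * a + -(3 / 2) * b) := by ring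
  rw [c1'] at c1
  have I2 : I p 1 (2 / 3 * a + -(3 / 2) * b) := by
    have : 2 / 3 * a + -(3 / 2) * b = a + (-(1 / 3) * a + -(3 / 2) * b) := by ring
    rw [this]; exact Ia.add Iab
  have c2 := ((EQ.refl (k := 2) (U_small Ib).2.1).mul c1).trans (mul_small Ib I2)
  have I12b : I p 1 (-(1 / 2) * b) := Ib.mulL (neg_mem m12)
  have I23a : I p 1 (2 / 3 * a) := by
    have : 2 / 3 * a = (2 * 3⁻¹) * a := by ring
    rw [this]; exact Ia.mulL (mul_mem u2.2.1 u3.2.2)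
  have c3 := mul_small I12b I23a
  have c3' : 1 + -(1 / 2) * b + 2 / 3 * a = 1 + b + (2 / 3 * a + -(3 / 2) * b) := by ring
  rw [c3'] at c3
  have c4 := c2.trans c3.symm
  have mQ : σ * 27 ^ M * (16 ^ M)⁻¹ * (16 ^ M)⁻¹ * C4 ∈ Zp p :=
    mul_mem (mul_mem mP u16M.2.2) uC4.2.1
  have g6 := (EQ.refl (k := 2) mQ).mul c4
  have e1 : σ * 27 ^ M * (16 ^ M)⁻¹ * (1 + b) * ((16 ^ M)⁻¹ * (C4 * (1 + a))) *
      (1 + (-(1 / 3) * a + -(3 / 2) * b)) = σ * 27 ^ M * (16 ^ M)⁻¹ * (16 ^ M)⁻¹ * C4 *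
      ((1 + b) * ((1 + a) * (1 + (-(1 / 3) * a + -(3 / 2) * b)))) := by ring
  rw [e1] at g5
  have g7 := g5.trans g6
  have e2 : σ * 27 ^ M * (16 ^ M)⁻¹ * (16 ^ M)⁻¹ * C4 * ((1 + -(1 / 2) * b) * (1 + 2 / 3 * a)) =
      (-1) ^ M * (27 ^ M * ((1 + -(1 / 2) * b) * (((4 * j).choose (2 * j) : ℚ) *
        ((16 ^ j)⁻¹ * (1 + 2 / 3 * a))))) := by
    have k : ((16 : ℚ) ^ j)⁻¹ = (16 ^ M)⁻¹ * (16 ^ M)⁻¹ := by
      rw [hjM, ← mul_inv, ← mul_pow, pow_mul]; norm_num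
    rw [← hC4, k, ← hσ]; ring
  rwa [e2] at g7

end Pool.Agent.T6.H7.SB
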