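import Mathlib
import Pool.Agent.T6.H7.SB.S2D
import Pool.Agent.R488.Sq.W

set_option autoImplicit false

/-!
`∑ C(-1/4,k) C(-1/2,k) (-8)^k` modulo `p^2`, `p = 12M+7`.
-/

namespace Pool.Agent.T6.H7.SB

open Finset Pool.Agent.R439.PL Pool.Agent.R439.PL.S4 Pool.Agent.R488.Tri Pool.Agent.R488.Cub
  Pool.Agent.R488.Nin Pool.Agent.R488.Sq

variable {p j M : ℕ} [hp : Fact p.Prime]

omit hp in
theorem split3 (a b c : ℕ) (x : ℚ) : ∏ i ∈ range (a + 1 + b), (x + i : ℚ) =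
    (∏ i ∈ range a, (x + i : ℚ)) * (x + a) * ∏ i ∈ range b, (x + a + 1 + i : ℚ) := by
  rw [prod_range_add, prod_range_succ]
  congr 1
  refine prod_congr rfl fun i _ => ?_
  push_cast; ring

theorem S2_seven (hpM : p = 12 * M + 7) (hjM : j = 2 * M + 1) (h7 : p ≠ 7) {a b : ℚ}
    (ha : a = 64 ^ j - 1) (hb : b = (-27) ^ j - 1) : EQ p 2 (HS p 0)
    (2 * ((-1) ^ M * (3 / 2 * (3 * 27 ^ M * ((1 + -(1 / 2) * b) *
      (((4 * j).choose (2 * j) : ℚ) * ((16 ^ j)⁻¹ * (1 + 2 / 3 * a)))))))) := by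
  have hpj : p = 6 * j + 1 := by omega
  obtain ⟨a', b', C4, C3, C2, hC4, hC3, hC2, ha', hb', Ia, Ib, uC4, mC3, mC2, E3, E2, E1, e1, e6⟩ :=
    facts harm hpj
  rw [← ha] at ha'
  rw [← hb] at hb'
  have ha2 : a = a' := ha'.symm
  have hb2 : b = b' := hb'.symm
  clear ha' hb'
  subst ha2 hb2
  have hj := j_pos hpj
  have hp0 : (p : ℚ) ≠ 0 := p_ne
  have hpq : (p : ℚ) = 12 * M + 7 := by exact_mod_cast hpM
  have u2 := U2 hpj
  have u3 := U3 hpj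
  have u4 := U4 hpj
  have u12 : U p (12 : ℚ) := by
    have : (12 : ℚ) = 3 * 4 := by norm_num
    rw [this]; exact u3.mul u4
  have u6 := U6 hpj
  have u7 : U p (7 : ℚ) := by
    have := U_nat (p := p) (k := 7) (by norm_num) (by omega)
    exact_mod_cast this
  have m12 : (1 / 2 : ℚ) ∈ Zp p := by rw [one_div]; exact u2.2.2
  have m13 : (1 / 3 : ℚ) ∈ Zp p := by rw [one_div]; exact u3.2.2
  have m14 : (1 / 4 : ℚ) ∈ Zp p := by rw [one_div]; exact u4.2.2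
  have m16 : (1 / 6 : ℚ) ∈ Zp p := by rw [one_div]; exact u6.2.2
  have m112 : (1 / 12 : ℚ) ∈ Zp p := by rw [one_div]; exact u12.2.2
  have m13' : (-(1 / 3) : ℚ) ∈ Zp p := neg_mem m13
  have m14' : (-(1 / 4) : ℚ) ∈ Zp p := neg_mem m14
  have m112' : (-(1 / 12) : ℚ) ∈ Zp p := neg_mem m112
  have m34 : (3 / 4 : ℚ) ∈ Zp p := by rw [div_eq_mul_inv]; exact mul_mem u3.2.1 u4.2.2
  have m9 : (9 : ℚ) ∈ Zp p := by exact_mod_cast nat_mem (p := p) 9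
  have m97 : (9 / 7 : ℚ) ∈ Zp p := by rw [div_eq_mul_inv]; exact mul_mem m9 u7.2.2
  have m27' : (-(2 / 7) : ℚ) ∈ Zp p := by rw [div_eq_mul_inv]; exact neg_mem (mul_mem u2.2.1 u7.2.2)
  -- the two points
  have hd4 : I p 1 (-3 * (p : ℚ) / 4) := by
    have : -3 * (p : ℚ) / 4 = p * (-(3 / 4)) := by ring
    rw [this]; exact (I_p (p := p)).mulR (neg_mem m34)
  have hd6 : I p 1 (-(p : ℚ) / 6) := by rw [div_eq_mul_inv]; exact (I_p (p := p)).neg.mulR u6.2.2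
  have h0 := Lin.two (lin_HS hpj) hd6 hd4 m97 m27' (by norm_num) (by ring)
  have X0 := HS_X (p := p) (r := j) (s := -(p : ℚ) / 6) (by rw [hpq, hjM]; push_cast; ring) (by omega)
  have U0 := HS_U (p := p) (n := 9 * M + 5) (s := -3 * (p : ℚ) / 4) (by rw [hpq]; push_cast; ring) (by omega)
  -- symbols
  obtain ⟨f1, hf1⟩ : ∃ f1 : ℚ, f1 = (M.factorial : ℚ) := ⟨_, rfl⟩
  obtain ⟨f2, hf2⟩ : ∃ f2 : ℚ, f2 = ((2 * M + 1).factorial : ℚ) := ⟨_, rfl⟩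
  obtain ⟨f3, hf3⟩ : ∃ f3 : ℚ, f3 = ((3 * M + 1).factorial : ℚ) := ⟨_, rfl⟩
  obtain ⟨f4, hf4⟩ : ∃ f4 : ℚ, f4 = ((4 * M + 2).factorial : ℚ) := ⟨_, rfl⟩
  obtain ⟨f5, hf5⟩ : ∃ f5 : ℚ, f5 = ((5 * M + 2).factorial : ℚ) := ⟨_, rfl⟩
  obtain ⟨f6, hf6⟩ : ∃ f6 : ℚ, f6 = ((6 * M + 3).factorial : ℚ) := ⟨_, rfl⟩
  obtain ⟨f10, hf10⟩ : ∃ f10 : ℚ, f10 = ((10 * M + 5).factorial : ℚ) := ⟨_, rfl⟩
  obtain ⟨f12, hf12⟩ : ∃ f12 : ℚ, f12 = ((12 * M + 6).factorial : ℚ) := ⟨_, rfl⟩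
  obtain ⟨h1, hh1⟩ : ∃ h1 : ℚ, h1 = p * H M := ⟨_, rfl⟩
  obtain ⟨h2, hh2⟩ : ∃ h2 : ℚ, h2 = p * H (2 * M + 1) := ⟨_, rfl⟩
  obtain ⟨h3, hh3⟩ : ∃ h3 : ℚ, h3 = p * H (3 * M + 1) := ⟨_, rfl⟩
  obtain ⟨h4, hh4⟩ : ∃ h4 : ℚ, h4 = p * H (4 * M + 2) := ⟨_, rfl⟩
  obtain ⟨h5, hh5⟩ : ∃ h5 : ℚ, h5 = p * H (5 * M + 2) := ⟨_, rfl⟩
  obtain ⟨h6, hh6⟩ : ∃ h6 : ℚ, h6 = p * H (6 * M + 3) := ⟨_, rfl⟩
  obtain ⟨h10, hh10⟩ : ∃ h10 : ℚ, h10 = p * H (10 * M + 5) := ⟨_, rfl⟩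
  obtain ⟨h12, hh12⟩ : ∃ h12 : ℚ, h12 = p * H (12 * M + 6) := ⟨_, rfl⟩
  have hH0 : H 0 = 0 := by simp [H]
  have uf1 : U p f1 := by rw [hf1]; exact U_fac (by omega)
  have uf2 : U p f2 := by rw [hf2]; exact U_fac (by omega)
  have uf3 : U p f3 := by rw [hf3]; exact U_fac (by omega)
  have uf4 : U p f4 := by rw [hf4]; exact U_fac (by omega)
  have uf5 : U p f5 := by rw [hf5]; exact U_fac (by omega)
  have uf6 : U p f6 := by rw [hf6]; exact U_fac (by omega)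
  have uf10 : U p f10 := by rw [hf10]; exact U_fac (by omega)
  have uf12 : U p f12 := by rw [hf12]; exact U_fac (by omega)
  -- harmonic facts
  rw [hjM, show 3 * (2 * M + 1) = 6 * M + 3 by ring, ← hh6] at E3
  rw [hjM, show 2 * (2 * M + 1) = 4 * M + 2 by ring, ← hh4] at E2
  rw [hjM, ← hh2] at E1
  have r6 : I p 2 (h6 + 2 * a) := by
    have e : h6 + 2 * a = h6 - -2 * a := by ring
    rw [e]; exact E3.2.2
  have r4 : I p 2 (h4 + 3 * b) := by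
    have e : h4 + 3 * b = h4 - -3 * b := by ring
    rw [e]; exact E2.2.2
  have r2 : I p 2 (h2 + 2 * a + 3 * b) := by
    have e : h2 + 2 * a + 3 * b = h2 - (-2 * a - 3 * b) := by ring
    rw [e]; exact E1.2.2
  have r12 : I p 2 h12 := by
    have h := (I_p (p := p)).mul (Hp1 hpj)
    rw [show 6 * j = 12 * M + 6 by omega, ← hh12] at h
    exact h
  have r10 : I p 2 (h12 - h10 + h2) := by
    have s := descS (p := p) (a := 2 * M + 1) (b := 2 * M + 1) (by omega) (by omega) (one_mem _)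
      (x := ((10 * M + 5 : ℕ) : ℚ) + 1) (by rw [hpq]; push_cast; ring)
    rw [Nat.sub_self, hH0, ← hh2, mul_zero, sub_zero] at s
    have t : ∑ i ∈ range (2 * M + 1), (((10 * M + 5 : ℕ) : ℚ) + 1 + i)⁻¹ = H (12 * M + 6) - H (10 * M + 5) := by
      have t1 := H_sub (12 * M + 6) (2 * M + 1) (by omega)
      rw [show 12 * M + 6 - (2 * M + 1) = 10 * M + 5 by omega] at t1
      rw [← t1, ← sum_range_reflect]
      refine sum_congr rfl fun i hi => ?_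
      have hi' := mem_range.1 hi
      congr 1
      rw [Nat.sub_sub, Nat.cast_sub (show 1 + i ≤ 2 * M + 1 by omega)]
      push_cast; ring
    rw [t] at s
    have e : h12 - h10 + h2 = p * (H (12 * M + 6) - H (10 * M + 5)) + h2 := by rw [hh12, hh10]; ring
    rw [e]; exact s
  have rD : I p 2 (2 * h2 - h1 + (h6 - h5)) := by
    have s := descS (p := p) (a := 6 * M + 3) (b := M + 1) (by omega) (by omega) m12 (x := 1 / 2)
      (by rw [hpq]; push_cast; ring)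
    rw [show 6 * M + 3 - (M + 1) = 5 * M + 2 by omega, ← hh6, ← hh5] at s
    have e := H_dup1 M
    have e' : 2 * h2 - h1 + (h6 - h5) = p * ∑ i ∈ range (M + 1), (1 / 2 + i : ℚ)⁻¹ + (h6 - h5) := by
      rw [hh2, hh1]; linear_combination (p : ℚ) * e
    rw [e']; exact s
  have rT : I p 2 (3 * h3 - h1 + (h4 - h3) - (h5 - h4)) := by
    have s := descS (p := p) (a := 4 * M + 2) (b := M + 1) (by omega) (by omega) m13 (x := 1 / 3)
      (by rw [hpq]; push_cast; ring)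
    rw [show 4 * M + 2 - (M + 1) = 3 * M + 1 by omega, ← hh4, ← hh3] at s
    have t := ascS (p := p) (a := 4 * M + 2) (b := M) (by omega) m13' (x := 2 / 3)
      (by rw [hpq]; push_cast; ring)
    rw [show 4 * M + 2 + M = 5 * M + 2 by omega, ← hh4, ← hh5] at t
    have e := H_trip1 M
    have e' : 3 * h3 - h1 + (h4 - h3) - (h5 - h4) =
        (p * ∑ i ∈ range (M + 1), (1 / 3 + i : ℚ)⁻¹ + (h4 - h3)) +
        (p * ∑ i ∈ range M, (2 / 3 + i : ℚ)⁻¹ - (h5 - h4)) := by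
      rw [hh3, hh1]; linear_combination (p : ℚ) * e
    rw [e']; exact s.add t
  have uM : ∀ n : ℕ, U p ((-1 : ℚ) ^ n) := fun n => by
    rcases neg_one_pow_eq_or ℚ n with h | h <;> rw [h]
    · exact U.one
    · exact U_neg U.one
  have u27 : U p (27 : ℚ) := by
    have : (27 : ℚ) = 3 * 3 * 3 := by norm_num
    rw [this]; exact (u3.mul u3).mul u3
  have u274 : U p (27 / 4 : ℚ) := u27.div u4
  obtain ⟨σ, hσ⟩ : ∃ σ : ℚ, σ = (-1) ^ M := ⟨_, rfl⟩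
  have hσ2 : σ * σ = 1 := by rw [hσ, ← mul_pow]; norm_num
  have hσ0 : σ ≠ 0 := by intro h; rw [h] at hσ2; norm_num at hσ2
  have uσ : U p σ := by rw [hσ]; exact uM M
  have hσ1 : (-1 : ℚ) ^ (M + 1) = -σ := by rw [pow_succ, hσ]; ring
  have hone : (-1 : ℚ) ^ (2 * M + 1) = -1 := by rw [pow_succ, pow_mul]; norm_num
  -- duplication and triplication
  have qD : Q p (f2 * f5 / (f1 * f6)) (-2 * (-4) ^ M) (-(1 / 2) * (h6 - h5)) := by
    have s := desc (p := p) (a := 6 * M + 3) (b := M + 1) (by omega) (by omega) m12 (x := 1 / 2)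
      (by rw [hpq]; push_cast; ring)
    rw [show 6 * M + 3 - (M + 1) = 5 * M + 2 by omega, ← hh6, ← hh5, ← hf6, ← hf5, hσ1] at s
    have s2 := (Q.refl ((u2.mul (u4.pow M)).mul uf1)).mul s
    have e := fac_dup1 M
    rw [← hf2, ← hf1] at e
    rw [← e] at s2
    have s3 := s2.mul (Q.refl (uf5.div (uf1.mul uf6)))
    have e1 : f2 * (f5 / (f1 * f6)) = f2 * f5 / (f1 * f6) := by ring
    have e2 : 2 * 4 ^ M * f1 * (-σ * (f6 / f5)) * (f5 / (f1 * f6)) = -2 * (-4) ^ M := by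
      have n1 := uf1.1
      have n2 := uf5.1
      have n3 := uf6.1
      have e3 : (-4 : ℚ) ^ M = σ * 4 ^ M := by rw [hσ, ← mul_pow]; norm_num
      rw [e3]
      field_simp
    rw [e1, e2] at s3
    have e4 : 0 + -(1 / 2) * (h6 - h5) + 0 = -(1 / 2) * (h6 - h5) := by ring
    rwa [e4] at s3
  have qT : Q p (f3 * f3 / (f1 * f5)) (-3 * (-27) ^ M) (-(1 / 3) * (h5 - h3)) := by
    have s := desc (p := p) (a := 4 * M + 2) (b := M + 1) (by omega) (by omega) m13 (x := 1 / 3)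
      (by rw [hpq]; push_cast; ring)
    rw [show 4 * M + 2 - (M + 1) = 3 * M + 1 by omega, ← hh4, ← hh3, ← hf4, ← hf3, hσ1] at s
    have t := asc (p := p) (a := 4 * M + 2) (b := M) (by omega) m13' (x := 2 / 3)
      (by rw [hpq]; push_cast; ring)
    rw [show 4 * M + 2 + M = 5 * M + 2 by omega, ← hh4, ← hh5, ← hf4, ← hf5] at t
    have s2 := (Q.refl ((u3.mul (u27.pow M)).mul uf1)).mul (s.mul t)
    have e := fac_trip1 M
    rw [← hf3, ← hf1] at e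
    rw [← e] at s2
    have s3 := s2.mul (Q.refl (uf3.div (uf1.mul uf5)))
    have e1 : f3 * (f3 / (f1 * f5)) = f3 * f3 / (f1 * f5) := by ring
    have e2 : 3 * 27 ^ M * f1 * (-σ * (f4 / f3) * (f5 / f4)) * (f3 / (f1 * f5)) = -3 * (-27) ^ M := by
      have n1 := uf1.1
      have n2 := uf5.1
      have n3 := uf3.1
      have n4 := uf4.1
      have e3 : (-27 : ℚ) ^ M = σ * 27 ^ M := by rw [hσ, ← mul_pow]; norm_num
      rw [e3]
      field_simp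
    rw [e1, e2] at s3
    have e4 : 0 + (-(1 / 3) * (h4 - h3) + -(1 / 3) * (h5 - h4)) + 0 = -(1 / 3) * (h5 - h3) := by ring
    rwa [e4] at s3
  have hC2f : C2 = f4 / (f2 * f2) := by
    rw [hC2, choose_fac, hjM, hf2, hf4, show 2 * (2 * M + 1) = 4 * M + 2 by ring]
  -- the value at -p/6
  have qX : Q p (HS p (-(p : ℚ) / 6)) ((27 / 4) ^ j * (-3 * (-27) ^ M)⁻¹ * C2)
      (-(1 / 3) * (h4 - h2) + -(1 / 4) * (h5 - h3) - (-(1 / 6) * h2 + -(1 / 12) * (h3 - h1)) -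
        -(1 / 3) * (h5 - h3)) := by
    have s1 := desc (p := p) (a := 4 * M + 2) (b := 2 * M + 1) (by omega) (by omega) m13 (x := 1 / 3)
      (by rw [hpq]; push_cast; ring)
    rw [show 4 * M + 2 - (2 * M + 1) = 2 * M + 1 by omega, ← hh4, ← hh2, ← hf4, ← hf2, hone] at s1
    have s2 := asc (p := p) (a := 3 * M + 1) (b := 2 * M + 1) (by omega) m14' (x := 1 / 4)
      (by rw [hpq]; push_cast; ring)
    rw [show 3 * M + 1 + (2 * M + 1) = 5 * M + 2 by omega, ← hh5, ← hh3, ← hf5, ← hf3] at s2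
    have s3 := desc (p := p) (a := 2 * M + 1) (b := 2 * M + 1) (by omega) (by omega) m16 (x := 1 / 6)
      (by rw [hpq]; push_cast; ring)
    rw [Nat.sub_self, hH0, ← hh2, ← hf2, hone, mul_zero, sub_zero, Nat.factorial_zero,
      Nat.cast_one, div_one] at s3
    have s4 := asc (p := p) (a := M) (b := 2 * M + 1) (by omega) m112' (x := 5 / 12)
      (by rw [hpq]; ring)
    rw [show M + (2 * M + 1) = 3 * M + 1 by omega, ← hh3, ← hh1, ← hf3, ← hf1] at s4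
    have t := (Q.refl (u274.pow j)).mul ((s1.mul s2).div (s3.mul s4))
    rw [hjM] at X0
    rw [hjM, ← X0] at t
    have uA : U p ((27 / 4) ^ (2 * M + 1) * (f4 / (f2 * f2)) : ℚ) :=
      (u274.pow _).mul (uf4.div (uf2.mul uf2))
    have t2 := (Q.refl uA).mul qT.inv
    have e1 : (27 / 4 : ℚ) ^ (2 * M + 1) * (f4 / (f2 * f2)) * (f3 * f3 / (f1 * f5))⁻¹ =
        (27 / 4) ^ (2 * M + 1) * (-1 * (f4 / f2) * (f5 / f3) / (-1 * f2 * (f3 / f1))) := by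
      have n1 := uf1.1
      have n2 := uf5.1
      have n3 := uf3.1
      have n4 := uf2.1
      field_simp
    rw [e1] at t2
    have t3 := t.trans t2
    have e2 : (27 / 4 : ℚ) ^ (2 * M + 1) * (f4 / (f2 * f2)) * (-3 * (-27) ^ M)⁻¹ =
        (27 / 4) ^ j * (-3 * (-27) ^ M)⁻¹ * C2 := by
      rw [hC2f, hjM]; ring
    rw [e2] at t3
    have e3 : 0 + (-(1 / 3) * (h4 - h2) + -(1 / 4) * (h5 - h3) - (-(1 / 6) * h2 + -(1 / 12) * (h3 - h1))) +
        (0 + - (-(1 / 3) * (h5 - h3))) =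
      (-(1 / 3) * (h4 - h2) + -(1 / 4) * (h5 - h3) - (-(1 / 6) * h2 + -(1 / 12) * (h3 - h1)) -
        -(1 / 3) * (h5 - h3)) := by ring
    rwa [e3] at t3
  -- the value at -3p/4
  have qU : Q p (HS p (-3 * (p : ℚ) / 4)) ((27 / 4) ^ (9 * M + 5) * (2 / 3) * (-2 * (-4) ^ M) * C2)
      (-(1 / 3) * h4 + 1 / 3 * h5 + -(1 / 12) * (h10 - h1) -
        (-(1 / 2) * h6 + 1 / 2 * h3 + -(1 / 4) * (h12 - h3)) + h2 + -(1 / 2) * (h6 - h5)) := by
    have sp1 : ∏ i ∈ range (9 * M + 5), (1 / 3 + i : ℚ) = (∏ i ∈ range (4 * M + 2), (1 / 3 + i : ℚ)) *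
        (p / 3) * ∏ i ∈ range (5 * M + 2), (1 + p / 3 + i : ℚ) := by
      have e := split3 (4 * M + 2) (5 * M + 2) 0 (1 / 3)
      rw [show 4 * M + 2 + 1 + (5 * M + 2) = 9 * M + 5 by ring] at e
      have k1 : (1 / 3 : ℚ) + ((4 * M + 2 : ℕ) : ℚ) = p / 3 := by rw [hpq]; push_cast; ring
      rw [e, k1, show (p : ℚ) / 3 + 1 = 1 + p / 3 by ring]
    have sp2 : ∏ i ∈ range (9 * M + 5), (1 / 2 + i : ℚ) = (∏ i ∈ range (6 * M + 3), (1 / 2 + i : ℚ)) *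
        (p / 2) * ∏ i ∈ range (3 * M + 1), (1 + p / 2 + i : ℚ) := by
      have e := split3 (6 * M + 3) (3 * M + 1) 0 (1 / 2)
      rw [show 6 * M + 3 + 1 + (3 * M + 1) = 9 * M + 5 by ring] at e
      have k1 : (1 / 2 : ℚ) + ((6 * M + 3 : ℕ) : ℚ) = p / 2 := by rw [hpq]; push_cast; ring
      rw [e, k1, show (p : ℚ) / 2 + 1 = 1 + p / 2 by ring]
    have q42 : (-1 : ℚ) ^ (4 * M + 2) = 1 := by
      rw [show 4 * M + 2 = 2 * (2 * M + 1) by ring, pow_mul]; norm_num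
    have q63 : (-1 : ℚ) ^ (6 * M + 3) = -1 := by
      rw [show 6 * M + 3 = 2 * (3 * M + 1) + 1 by ring, pow_succ, pow_mul]; norm_num
    have s1 := desc (p := p) (a := 4 * M + 2) (b := 4 * M + 2) (by omega) (by omega) m13 (x := 1 / 3)
      (by rw [hpq]; push_cast; ring)
    rw [Nat.sub_self, hH0, ← hh4, ← hf4, q42, mul_zero, sub_zero, Nat.factorial_zero,
      Nat.cast_one, div_one, one_mul] at s1
    have s1b := asc (p := p) (a := 0) (b := 5 * M + 2) (by omega) m13 (x := 1 + p / 3)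
      (by push_cast; ring)
    rw [zero_add, hH0, ← hh5, ← hf5, mul_zero, sub_zero, Nat.factorial_zero, Nat.cast_one, div_one] at s1b
    have s2 := asc (p := p) (a := M) (b := 9 * M + 5) (by omega) m112' (x := 5 / 12)
      (by rw [hpq]; ring)
    rw [show M + (9 * M + 5) = 10 * M + 5 by omega, ← hh10, ← hh1, ← hf10, ← hf1] at s2
    have s3 := desc (p := p) (a := 6 * M + 3) (b := 6 * M + 3) (by omega) (by omega) m12 (x := 1 / 2)
      (by rw [hpq]; push_cast; ring)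
    rw [Nat.sub_self, hH0, ← hh6, ← hf6, q63, mul_zero, sub_zero, Nat.factorial_zero,
      Nat.cast_one, div_one] at s3
    have s3b := asc (p := p) (a := 0) (b := 3 * M + 1) (by omega) m12 (x := 1 + p / 2)
      (by push_cast; ring)
    rw [zero_add, hH0, ← hh3, ← hf3, mul_zero, sub_zero, Nat.factorial_zero, Nat.cast_one, div_one] at s3b
    have s4 := asc (p := p) (a := 3 * M + 1) (b := 9 * M + 5) (by omega) m14' (x := 1 / 4)
      (by rw [hpq]; push_cast; ring)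
    rw [show 3 * M + 1 + (9 * M + 5) = 12 * M + 6 by omega, ← hh12, ← hh3, ← hf12, ← hf3] at s4
    -- reflection
    have s5 := desc (p := p) (a := 2 * M + 1) (b := 2 * M + 1) (by omega) (by omega) (one_mem _)
      (x := ((10 * M + 5 : ℕ) : ℚ) + 1) (by rw [hpq]; push_cast; ring)
    have s5' : ∏ i ∈ range (2 * M + 1), (((10 * M + 5 : ℕ) : ℚ) + 1 + i) = f12 / f10 := by
      have t1 := prod_desc (a := 12 * M + 6) (b := 2 * M + 1) (by omega)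
      rw [show 12 * M + 6 - (2 * M + 1) = 10 * M + 5 by omega, ← hf12, ← hf10] at t1
      rw [← t1, ← prod_range_reflect]
      refine prod_congr rfl fun i hi => ?_
      have hi' := mem_range.1 hi
      rw [Nat.sub_sub, Nat.cast_sub (show 1 + i ≤ 2 * M + 1 by omega)]
      push_cast; ring
    rw [s5', Nat.sub_self, hH0, ← hh2, ← hf2, hone, mul_zero, sub_zero, Nat.factorial_zero,
      Nat.cast_one, div_one] at s5
    have t := (Q.refl ((u274.pow (9 * M + 5)).mul (u2.div u3))).mul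
      (((s1.mul s1b).mul s2).div ((s3.mul s3b).mul s4))
    have eU : (27 / 4 : ℚ) ^ (9 * M + 5) * (2 / 3) *
        (((∏ i ∈ range (4 * M + 2), (1 / 3 + i : ℚ)) * (∏ i ∈ range (5 * M + 2), (1 + p / 3 + i : ℚ)) *
          ∏ i ∈ range (9 * M + 5), (5 / 12 + i : ℚ)) /
        ((∏ i ∈ range (6 * M + 3), (1 / 2 + i : ℚ)) * (∏ i ∈ range (3 * M + 1), (1 + p / 2 + i : ℚ)) *
          ∏ i ∈ range (9 * M + 5), (1 / 4 + i : ℚ))) = HS p (-3 * (p : ℚ) / 4) := by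
      rw [U0, sp1, sp2]
      have n1 := s3.1.1
      have n2 := s3b.1.1
      have n3 := s4.1.1
      generalize (∏ i ∈ range (6 * M + 3), (1 / 2 + i : ℚ)) = y1 at *
      generalize (∏ i ∈ range (3 * M + 1), (1 + p / 2 + i : ℚ)) = y2 at *
      generalize (∏ i ∈ range (9 * M + 5), (1 / 4 + i : ℚ)) = y3 at *
      generalize (∏ i ∈ range (4 * M + 2), (1 / 3 + i : ℚ)) = y4
      generalize (∏ i ∈ range (5 * M + 2), (1 + p / 3 + i : ℚ)) = y5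
      generalize (∏ i ∈ range (9 * M + 5), (5 / 12 + i : ℚ)) = y6
      generalize (27 / 4 : ℚ) ^ (9 * M + 5) = y7
      field_simp
    rw [eU] at t
    have uA : U p ((27 / 4) ^ (9 * M + 5) * (2 / 3) * (f4 / (f2 * f2)) : ℚ) :=
      ((u274.pow _).mul (u2.div u3)).mul (uf4.div (uf2.mul uf2))
    have t2 := ((Q.refl uA).mul qD).mul ((Q.refl (U_neg uf2)).mul s5.inv)
    have e1 : (27 / 4 : ℚ) ^ (9 * M + 5) * (2 / 3) * (f4 / (f2 * f2)) * (f2 * f5 / (f1 * f6)) *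
        (-f2 * (f12 / f10)⁻¹) = (27 / 4) ^ (9 * M + 5) * (2 / 3) *
        ((f4 * f5) * (f10 / f1) / (-1 * f6 * f3 * (f12 / f3))) := by
      have n1 := uf1.1
      have n2 := uf6.1
      have n3 := uf3.1
      have n4 := uf2.1
      have n5 := uf10.1
      have n6 := uf12.1
      field_simp
    rw [e1] at t2
    have t3 := t.trans t2
    have e2 : (27 / 4 : ℚ) ^ (9 * M + 5) * (2 / 3) * (f4 / (f2 * f2)) * (-2 * (-4) ^ M) *
        (-f2 * (-1 * f2)⁻¹) = (27 / 4) ^ (9 * M + 5) * (2 / 3) * (-2 * (-4) ^ M) * C2 := by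
      have n4 := uf2.1
      rw [hC2f]
      have : -f2 * (-1 * f2)⁻¹ = 1 := by
        rw [neg_one_mul]; exact mul_inv_cancel₀ (neg_ne_zero.2 n4)
      rw [this]; ring
    rw [e2] at t3
    refine t3.congr ?_
    have e3 : 0 + (-(1 / 3) * h4 + 1 / 3 * h5 + -(1 / 12) * (h10 - h1) -
        (-(1 / 2) * h6 + 1 / 2 * h3 + -(1 / 4) * (h12 - h3))) +
        (0 + -(1 / 2) * (h6 - h5) + (0 + -(-1 * h2))) -
        (-(1 / 3) * h4 + 1 / 3 * h5 + -(1 / 12) * (h10 - h1) -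
        (-(1 / 2) * h6 + 1 / 2 * h3 + -(1 / 4) * (h12 - h3)) + h2 + -(1 / 2) * (h6 - h5)) = 0 := by ring
    rw [e3]; exact I.zero
  -- change of the factor
  obtain ⟨A, hA⟩ : ∃ A : ℚ, A = (27 / 4) ^ j * (-3 * (-27) ^ M)⁻¹ * C2 := ⟨_, rfl⟩
  have uA : U p A := by rw [hA]; exact qX.2.1
  have n4M : (4 : ℚ) ^ M ≠ 0 := pow_ne_zero _ (by norm_num)
  have n27M : (27 : ℚ) ^ M ≠ 0 := pow_ne_zero _ (by norm_num)
  have ea : 1 + a = 64 * (4 ^ M) ^ 6 := by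
    have k : (64 : ℚ) ^ (2 * M) = (4 ^ M) ^ 6 := by
      rw [← pow_mul, mul_comm M 6, pow_mul, pow_mul]; norm_num
    rw [ha, hjM, pow_succ, k]; ring
  have eb : 1 + b = -27 * (27 ^ M) ^ 2 := by
    have k : (-27 : ℚ) ^ (2 * M) = (27 ^ M) ^ 2 := by
      rw [pow_mul, ← pow_mul (27 : ℚ) M 2, mul_comm M 2, pow_mul (27 : ℚ) 2 M]; norm_num
    rw [hb, hjM, pow_succ, k]; ring
  have hm27 : (-27 : ℚ) ^ M = σ * 27 ^ M := by rw [hσ, ← mul_pow]; norm_num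
  have hm4 : (-4 : ℚ) ^ M = σ * 4 ^ M := by rw [hσ, ← mul_pow]; norm_num
  have eA : (27 / 4 : ℚ) ^ (9 * M + 5) * (2 / 3) * (-2 * (-4) ^ M) * C2 =
      A * ((1 + a)⁻¹ * (((1 + b) * (1 + b)) * ((1 + b) * (1 + b)))) := by
    have k1 : (27 / 4 : ℚ) ^ (9 * M + 5) = (27 ^ M) ^ 9 / (4 ^ M) ^ 9 * (27 / 4) ^ 5 := by
      rw [pow_add, ← div_pow, ← div_pow, ← pow_mul, mul_comm M 9]
    have k2 : (27 / 4 : ℚ) ^ (2 * M + 1) = (27 ^ M) ^ 2 / (4 ^ M) ^ 2 * (27 / 4) := by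
      rw [pow_succ, ← div_pow, ← div_pow, ← pow_mul, mul_comm M 2]
    rw [hA, hjM, ea, eb, hm27, hm4, k1, k2]
    generalize (4 : ℚ) ^ M = X4 at n4M
    generalize (27 : ℚ) ^ M = X27 at n27M
    have : σ * σ = 1 := hσ2
    field_simp
    linear_combination (-(256 : ℚ) * C2) * this
  have s1 := inv_small Ia
  have qa : Q p (1 + a)⁻¹ 1 (-a) := by
    refine Q.of U.one Ia.neg ?_
    rw [one_mul, ← sub_eq_add_neg]; exact s1
  have qb : Q p (1 + b) 1 b := Q.of U.one Ib (by rw [one_mul]; exact EQ.refl (U_small Ib).2.1)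
  have qU2 := qU.trans (by
    rw [eA]
    exact (Q.refl uA).mul (qa.mul ((qb.mul qb).mul (qb.mul qb))))
  have x1 : A * (1 * (1 * 1 * (1 * 1))) = A := by ring
  rw [x1] at qU2
  rw [← hA] at qX
  have g1 := h0.trans (((EQ.refl (k := 2) m97).mul qX.2.2.2).add
    ((EQ.refl (k := 2) m27').mul qU2.2.2.2))
  obtain ⟨eX, heX⟩ : ∃ eX : ℚ, eX = (-(1 / 3) * (h4 - h2) + -(1 / 4) * (h5 - h3) -
    (-(1 / 6) * h2 + -(1 / 12) * (h3 - h1)) - -(1 / 3) * (h5 - h3)) := ⟨_, rfl⟩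
  obtain ⟨eY, heY⟩ : ∃ eY : ℚ, eY = (-(1 / 3) * h4 + 1 / 3 * h5 + -(1 / 12) * (h10 - h1) -
        (-(1 / 2) * h6 + 1 / 2 * h3 + -(1 / 4) * (h12 - h3)) + h2 + -(1 / 2) * (h6 - h5) +
        (0 + (-a + (b + b + (b + b))))) := ⟨_, rfl⟩
  rw [← heX, ← heY] at g1
  have IL : I p 2 (9 / 7 * eX + -(2 / 7) * eY - (-(1 / 3) * a + -(1 / 2) * b)) := by
    have m1 : (-(1 / 6) : ℚ) ∈ Zp p := neg_mem m16
    have m73 : (7 / 3 : ℚ) ∈ Zp p := by rw [div_eq_mul_inv]; exact mul_mem u7.2.1 u3.2.2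
    have m236 : (-(23 / 6) : ℚ) ∈ Zp p := by
      rw [div_eq_mul_inv]; exact neg_mem (mul_mem (by exact_mod_cast nat_mem (p := p) 23) u6.2.2)
    have e : 7 * (9 / 7 * eX + -(2 / 7) * eY - (-(1 / 3) * a + -(1 / 2) * b)) =
        -(1 / 6) * (h12 - h10 + h2) + -(1 / 3) * h12 + 3 / 4 * (3 * h3 - h1 + (h4 - h3) - (h5 - h4)) +
        1 / 6 * (2 * h2 - h1 + (h6 - h5)) + 7 / 3 * (h2 + 2 * a + 3 * b) + -(1 / 6) * (h6 + 2 * a) +
        -(23 / 6) * (h4 + 3 * b) := by rw [heX, heY]; ring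
    refine u7.cancel ?_
    rw [e]
    exact ((((((r10.mulL m1).add (r12.mulL m13')).add (rT.mulL m34)).add (rD.mulL m16)).add
      (r2.mulL m73)).add (r6.mulL m1)).add (r4.mulL m236)
  have Iab : I p 1 (-(1 / 3) * a + -(1 / 2) * b) := (Ia.mulL m13').add (Ib.mulL (neg_mem m12))
  have g2 : EQ p 2 (HS p 0) (A * (1 + (-(1 / 3) * a + -(1 / 2) * b))) := by
    refine g1.trans ⟨g1.2.1, mul_mem uA.2.1 (U_small Iab).2.1, ?_⟩
    have e : 9 / 7 * (A * (1 + eX)) + -(2 / 7) * (A * (1 + eY)) -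
      A * (1 + (-(1 / 3) * a + -(1 / 2) * b)) =
      A * (9 / 7 * eX + -(2 / 7) * eY - (-(1 / 3) * a + -(1 / 2) * b)) := by ring
    rw [e]
    exact IL.mulL uA.2.1
  -- in terms of C4
  have hk4 : (-4 : ℚ) ^ j = -4 * 16 ^ M := by rw [hjM, pow_succ, pow_mul]; norm_num; ring
  have u16M : U p ((16 : ℚ) ^ M) := by
    have : (16 : ℚ) = 4 * 4 := by norm_num
    rw [this]; exact (u4.mul u4).pow M
  have um4 : U p (-4 * (16 : ℚ) ^ M) := (U_neg u4).mul u16M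
  have g3 : EQ p 2 C2 ((-4 * 16 ^ M)⁻¹ * (C4 * (1 + a))) := by
    have t := (EQ.refl (k := 2) um4.2.2).mul e6.symm
    rw [hk4] at t
    have e : (-4 * (16 : ℚ) ^ M)⁻¹ * (-4 * 16 ^ M * C2) = C2 := by
      rw [← mul_assoc, inv_mul_cancel₀ um4.1, one_mul]
    rwa [e] at t
  have hA2 : A = -(9 / 4) * (σ * 27 ^ M * (16 ^ M)⁻¹) * C2 := by
    have k2 : (27 / 4 : ℚ) ^ (2 * M + 1) = (27 ^ M) ^ 2 / 16 ^ M * (27 / 4) := by
      have : (16 : ℚ) ^ M = (4 ^ M) ^ 2 := by rw [← pow_mul, mul_comm M 2, pow_mul]; norm_num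
      rw [this, pow_succ, ← div_pow, ← div_pow, ← pow_mul, mul_comm M 2]
    rw [hA, hjM, k2, hm27]
    have n16 := u16M.1
    generalize (16 : ℚ) ^ M = X16 at n16
    generalize (27 : ℚ) ^ M = X27 at n27M
    field_simp
    linear_combination (27 * C2) * hσ2
  have m94 : (-(9 / 4) : ℚ) ∈ Zp p := by rw [div_eq_mul_inv]; exact neg_mem (mul_mem m9 u4.2.2)
  have mP : -(9 / 4) * (σ * 27 ^ M * (16 ^ M)⁻¹) ∈ Zp p :=
    mul_mem m94 (mul_mem (mul_mem uσ.2.1 (u27.pow M).2.1) u16M.2.2)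
  have g4 := ((EQ.refl (k := 2) mP).mul g3).mul (EQ.refl (k := 2) (U_small Iab).2.1)
  rw [← hA2] at g4
  have g5 := g2.trans g4
  have c1 := mul_small Ia Iab
  have c1' : 1 + a + (-(1 / 3) * a + -(1 / 2) * b) = 1 + -(1 / 2) * b + 2 / 3 * a := by ring
  rw [c1'] at c1
  have I12b : I p 1 (-(1 / 2) * b) := Ib.mulL (neg_mem m12)
  have I23a : I p 1 (2 / 3 * a) := by
    have : 2 / 3 * a = (2 * 3⁻¹) * a := by ring
    rw [this]; exact Ia.mulL (mul_mem u2.2.1 u3.2.2)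
  have c4 := c1.trans (mul_small I12b I23a).symm
  have mQ : -(9 / 4) * (σ * 27 ^ M * (16 ^ M)⁻¹) * (-4 * 16 ^ M)⁻¹ * C4 ∈ Zp p :=
    mul_mem (mul_mem mP um4.2.2) uC4.2.1
  have g6 := (EQ.refl (k := 2) mQ).mul c4
  have e1 : -(9 / 4) * (σ * 27 ^ M * (16 ^ M)⁻¹) * ((-4 * 16 ^ M)⁻¹ * (C4 * (1 + a))) *
      (1 + (-(1 / 3) * a + -(1 / 2) * b)) = -(9 / 4) * (σ * 27 ^ M * (16 ^ M)⁻¹) * (-4 * 16 ^ M)⁻¹ * C4 *
      ((1 + a) * (1 + (-(1 / 3) * a + -(1 / 2) * b))) := by ring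
  rw [e1] at g5
  have g7 := g5.trans g6
  have e2 : -(9 / 4) * (σ * 27 ^ M * (16 ^ M)⁻¹) * (-4 * 16 ^ M)⁻¹ * C4 *
      ((1 + -(1 / 2) * b) * (1 + 2 / 3 * a)) =
      2 * ((-1) ^ M * (3 / 2 * (3 * 27 ^ M * ((1 + -(1 / 2) * b) *
      (((4 * j).choose (2 * j) : ℚ) * ((16 ^ j)⁻¹ * (1 + 2 / 3 * a))))))) := by
    have k : ((16 : ℚ) ^ j)⁻¹ = 1 / 16 * ((16 ^ M)⁻¹ * (16 ^ M)⁻¹) := by
      have : (16 : ℚ) ^ j = 16 * (16 ^ M * 16 ^ M) := by
        rw [hjM, pow_succ, pow_mul, ← mul_pow]; norm_num; ring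
      rw [this, mul_inv, mul_inv]; norm_num
    rw [← hC4, k, ← hσ, mul_inv]
    ring
  rwa [e2] at g7

end Pool.Agent.T6.H7.SB
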